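import Mathlib
set_option autoImplicit false
namespace H467G
open Real NNReal Filter Topology

/-- a walk of length `n` from `x` to `y` -/
def Walk {V : Type*} (Adj : V → V → Prop) (x y : V) (n : ℕ) : Prop :=
  ∃ f : ℕ → V, f 0 = x ∧ f n = y ∧ ∀ i < n, Adj (f i) (f (i + 1))

/-- `f` runs injectively around a cycle of length `n` -/
def IsCyc {V : Type*} (Adj : V → V → Prop) (n : ℕ) (f : ℤ → V) : Prop :=
  3 ≤ n ∧ (∀ i, f (i + n) = f i) ∧ (∀ i j, f i = f j → (n : ℤ) ∣ i - j) ∧ ∀ i, Adj (f i) (f (i + 1))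

/-- no cycle shorter than `g` -/
def NoCyc {V : Type*} (Adj : V → V → Prop) (g : ℕ) : Prop := ∀ n < g, ∀ f, ¬ IsCyc Adj n f

/-- combinatorial distance truncated at `M` -/
noncomputable def dd {V : Type*} (Adj : V → V → Prop) (M : ℕ) (x y : V) : ℕ :=
  sInf {n | n = M ∨ Walk Adj x y n}

/-- the angular metrics over which the Euclidean cone is CAT(0) -/
structure IsAng {G : Type*} (A : G → G → ℝ) : Prop where
  self : ∀ x, A x x = 0
  symm : ∀ x y, A x y = A y x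
  tri : ∀ x y z, A x z ≤ A x y + A y z
  nonneg : ∀ x y, 0 ≤ A x y
  le_pi : ∀ x y, A x y ≤ π
  med : ∀ x y, A x y < π → ∀ θ, 0 ≤ θ → θ ≤ A x y → ∃ p, A x p = θ ∧ A p y = A x y - θ ∧
    ∀ w, A w p ≤ A w x - θ ∨ A w p ≤ A w y - (A x y - θ) ∨ 2 * π ≤ A x y + A w x + A w y

/-- squared distance of the Euclidean cone -/
noncomputable def coneQ {G : Type*} (A : G → G → ℝ) (u v : G × ℝ≥0) : ℝ :=
  (u.2 : ℝ) ^ 2 + (v.2 : ℝ) ^ 2 - 2 * u.2 * v.2 * cos (A u.1 v.1)

/-- points of the legs of the ear `i`; `s = 0` is the centre `i`, `s = m i` is the parent -/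
def P (par : ℕ → Bool → ℕ) (m : ℕ → ℕ) (i : ℕ) (b : Bool) (s : ℕ) : ℕ × Bool × ℕ :=
  if s = 0 then (i, false, 0) else if s = m i then (par i b, false, 0) else (i, b, s)

/-- subdivided graph: for `i` with `E i`, vertex `i` is joined to its two parents by legs of `m i` edges -/
def EAdj (E : ℕ → Prop) (par : ℕ → Bool → ℕ) (m : ℕ → ℕ) (x y : ℕ × Bool × ℕ) : Prop :=
  ∃ i b s, E i ∧ s < m i ∧ ((x = P par m i b s ∧ y = P par m i b (s + 1)) ∨
    (y = P par m i b s ∧ x = P par m i b (s + 1)))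

/-- the coarse graph: for `i` with `E i`, vertex `i` is joined to its two parents -/
def CAdj (E : ℕ → Prop) (par : ℕ → Bool → ℕ) (x y : ℕ) : Prop :=
  ∃ i b, E i ∧ ((x = i ∧ y = par i b) ∨ (y = i ∧ x = par i b))

/-- block number of the vertex `i` -/
def bb (i : ℕ) : ℕ := Nat.log 2 ((Nat.log 2 i - 1) / 8)

/-- length of the edges from level `L + 1` down to level `L` -/
noncomputable def lam (L : ℕ) : ℝ := π / 2 ^ Nat.log 2 (L / 8)

/-- height of level `L` -/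
noncomputable def ht (L : ℕ) : ℝ := ∑ l ∈ Finset.Ico 32 L, lam l

/-- radius reached at level `L` -/
noncomputable def rho (L : ℕ) : ℝ := ∏ l ∈ Finset.Ico 32 L, cos (lam l)

/-- every short closed walk backtracks -/
def Back {V : Type*} (Adj : V → V → Prop) (g : ℕ) : Prop :=
  ∀ n, 0 < n → n < g → ∀ f : ℕ → V, (∀ i < n, Adj (f i) (f (i + 1))) → f n = f 0 →
    ∃ i, i + 2 ≤ n ∧ f i = f (i + 2)

/-- thin triangles property -/
def TL {V : Type*} (Adj : V → V → Prop) (g : ℕ) : Prop :=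
  ∀ (a b c : ℕ) (f h k : ℕ → V), a + b + c < g →
    (∀ i < a, Adj (f i) (f (i + 1))) → (∀ i < b, Adj (h i) (h (i + 1))) →
    (∀ i < c, Adj (k i) (k (i + 1))) → f a = h 0 → h b = k 0 → k c = f 0 →
    (∀ n < a, ¬ Walk Adj (f 0) (f a) n) → (∀ n < b, ¬ Walk Adj (h 0) (h b) n) →
    (∀ n < c, ¬ Walk Adj (k 0) (k c) n) → ∀ j ≤ a,
      (∃ n, Walk Adj (h b) (f j) n ∧ n + j ≤ c) ∨
      (∃ n, Walk Adj (h b) (f j) n ∧ n + (a - j) ≤ b)

end H467G
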