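import Pool.Agent.H467G.D
set_option autoImplicit false

namespace H467G
namespace JA
open Real NNReal Filter Topology
/-- planar inequality -/
theorem K1_A2 {al be ρ c θ a' b' φ : ℝ} (hal : 0 < al) (hbe : 0 < be) (hρpos : 0 < ρ)
    (hθ0 : 0 ≤ θ) (hθpi : θ ≤ π) (hθltc : θ ≤ c) (hcpi : c < π)
    (hρid : ρ = al * cos θ + be * cos (c - θ))
    (hid : ∀ a : ℝ, al * cos a + be * cos (c - a) = ρ * cos (a - θ))
    (ha0 : 0 ≤ a') (hb0 : 0 ≤ b') (hab : a' + b' ≤ c) (hφ0 : 0 ≤ φ) (hφπ : φ ≤ π)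
    (hφ1 : a' - θ ≤ φ) (hφ2 : b' - (c - θ) ≤ φ) :
    ρ * cos φ ≤ al * cos a' + be * cos b' := by
  by_cases h1 : a' ≤ θ
  · by_cases h2 : b' ≤ c - θ
    · have h3 : cos θ ≤ cos a' := cos_le_cos_of_nonneg_of_le_pi ha0 hθpi h1
      have h4 : cos (c - θ) ≤ cos b' :=
        cos_le_cos_of_nonneg_of_le_pi hb0 (by linarith) h2
      have h5 : ρ * cos φ ≤ ρ * 1 := mul_le_mul_of_nonneg_left (cos_le_one φ) hρpos.le
      have h6 := mul_le_mul_of_nonneg_left h3 hal.le
      have h7 := mul_le_mul_of_nonneg_left h4 hbe.le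
      linarith
    · push Not at h2
      have h3 : cos (c - b') ≤ cos a' :=
        cos_le_cos_of_nonneg_of_le_pi ha0 (by linarith) (by linarith)
      have h4 := hid (c - b')
      have e5 : c - (c - b') = b' := by ring
      rw [e5] at h4
      have h6 : cos (c - b' - θ) = cos (b' - (c - θ)) := by
        rw [← cos_neg]; congr 1; ring
      have h7 : cos φ ≤ cos (b' - (c - θ)) :=
        cos_le_cos_of_nonneg_of_le_pi (by linarith) hφπ hφ2
      rw [h6] at h4
      have h8 := mul_le_mul_of_nonneg_left h3 hal.le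
      have h9 := mul_le_mul_of_nonneg_left h7 hρpos.le
      linarith
  · push Not at h1
    have h3 : cos (c - a') ≤ cos b' :=
      cos_le_cos_of_nonneg_of_le_pi hb0 (by linarith) (by linarith)
    have h4 := hid a'
    have h7 : cos φ ≤ cos (a' - θ) :=
      cos_le_cos_of_nonneg_of_le_pi (by linarith) hφπ hφ1
    have h8 := mul_le_mul_of_nonneg_left h3 hbe.le
    have h9 := mul_le_mul_of_nonneg_left h7 hρpos.le
    linarith

section K1aux

variable {G : Type*} {A : G → G → ℝ}

theorem K1_caseB (h : IsAng A) (x y : G)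
    (al be : ℝ) (hbe : 0 ≤ be) (hab : be ≤ al) (hxy : A x y = π) :
    ∃ (p : G) (ρ : ℝ), 0 ≤ ρ ∧
      ρ ^ 2 = al ^ 2 + be ^ 2 + 2 * al * be * cos (A x y) ∧
      ∀ w : G, al * cos (A w x) + be * cos (A w y) ≤ ρ * cos (A w p) := by
  refine ⟨x, al - be, by linarith, ?_, fun w => ?_⟩
  · rw [hxy, cos_pi]; ring
  · have h1 := h.tri x w y
    rw [h.symm x w, hxy] at h1
    have h2 : cos (A w y) ≤ cos (π - A w x) := by
      apply cos_le_cos_of_nonneg_of_le_pi
      · linarith [h.le_pi w x]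
      · exact h.le_pi w y
      · linarith
    rw [cos_pi_sub] at h2
    nlinarith

theorem K1_caseA (h : IsAng A) (x y : G) (al be : ℝ) (hal : 0 < al) (hbe : 0 < be) (c : ℝ)
    (hc0 : 0 < c) (hcpi : c < π) (hc : A x y = c) :
    ∃ (p : G) (ρ : ℝ), 0 ≤ ρ ∧
      ρ ^ 2 = al ^ 2 + be ^ 2 + 2 * al * be * cos c ∧
      ∀ w : G, al * cos (A w x) + be * cos (A w y) ≤ ρ * cos (A w p) := by
  have hsc : 0 < sin c := sin_pos_of_pos_of_lt_pi hc0 hcpi
  have hsq := sin_sq_add_cos_sq c
  have hR : al ^ 2 + be ^ 2 + 2 * al * be * cos c = (al + be * cos c) ^ 2 + (be * sin c) ^ 2 := by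
    nlinarith
  have hRpos : 0 < al ^ 2 + be ^ 2 + 2 * al * be * cos c := by
    rw [hR]
    have : 0 < be * sin c := mul_pos hbe hsc
    positivity
  set ρ := Real.sqrt (al ^ 2 + be ^ 2 + 2 * al * be * cos c) with hρ
  have hρpos : 0 < ρ := Real.sqrt_pos.2 hRpos
  have hρsq : ρ ^ 2 = al ^ 2 + be ^ 2 + 2 * al * be * cos c := Real.sq_sqrt hRpos.le
  have hbs : 0 < be * sin c := mul_pos hbe hsc
  -- the angle
  obtain ⟨θ, hθ0, hθpi, hθc, hθs⟩ : ∃ θ : ℝ, 0 ≤ θ ∧ θ ≤ π ∧ ρ * cos θ = al + be * cos c ∧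
      ρ * sin θ = be * sin c := by
    refine ⟨arccos ((al + be * cos c) / ρ), arccos_nonneg _, arccos_le_pi _, ?_, ?_⟩
    · have habs : |(al + be * cos c) / ρ| ≤ 1 := by
        rw [abs_div, abs_of_pos hρpos, div_le_one hρpos]
        apply abs_le_of_sq_le_sq _ hρpos.le
        rw [hρsq, hR]
        nlinarith
      obtain ⟨h1, h2⟩ := abs_le.1 habs
      rw [cos_arccos h1 h2]
      field_simp
    · rw [sin_arccos]
      have h3 : 1 - ((al + be * cos c) / ρ) ^ 2 = (be * sin c / ρ) ^ 2 := by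
        rw [div_pow, div_pow, eq_div_iff (by positivity), sub_mul, div_mul_cancel₀ _ (by positivity),
          one_mul, hρsq, hR]
        ring
      rw [h3, Real.sqrt_sq (by positivity)]
      field_simp
  have hθs' : ρ * sin (c - θ) = al * sin c := by
    rw [sin_sub]
    have : ρ * (sin c * cos θ - cos c * sin θ) = sin c * (ρ * cos θ) - cos c * (ρ * sin θ) := by
      ring
    rw [this, hθc, hθs]; ring
  have hθltc : θ ≤ c := by
    by_contra hcon
    push Not at hcon
    have h1 : sin (θ - c) ≥ 0 := sin_nonneg_of_nonneg_of_le_pi (by linarith) (by linarith)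
    have h2 : sin (c - θ) = - sin (θ - c) := by rw [← sin_neg]; congr 1; ring
    have h3 : ρ * sin (c - θ) ≤ 0 := by rw [h2]; nlinarith
    rw [hθs'] at h3
    have : 0 < al * sin c := mul_pos hal hsc
    linarith
  have hρid : ρ = al * cos θ + be * cos (c - θ) := by
    rw [cos_sub]
    have h1 : ρ * (ρ : ℝ) = ρ * (al * cos θ + be * (cos c * cos θ + sin c * sin θ)) := by
      have e : ρ * (al * cos θ + be * (cos c * cos θ + sin c * sin θ)) =
        (al + be * cos c) * (ρ * cos θ) + (be * sin c) * (ρ * sin θ) := by ring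
      rw [e, hθc, hθs, ← sq, hρsq, hR]
      ring
    exact mul_left_cancel₀ hρpos.ne' h1
  have hid : ∀ a : ℝ, al * cos a + be * cos (c - a) = ρ * cos (a - θ) := by
    intro a
    rw [cos_sub, cos_sub]
    have e : ρ * (cos a * cos θ + sin a * sin θ) = cos a * (ρ * cos θ) + sin a * (ρ * sin θ) := by
      ring
    rw [e, hθc, hθs]; ring
  obtain ⟨p, hpx, hpy, hpw⟩ := h.med x y (by rw [hc]; exact hcpi) θ hθ0 (by rw [hc]; exact hθltc)
  rw [hc] at hpy
  refine ⟨p, ρ, hρpos.le, hρsq, fun w => ?_⟩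
  have hpw' := hpw w
  rw [hc] at hpw'
  set a := A w x with ha
  set b := A w y with hb
  set q := A w p with hq
  have ha0 : 0 ≤ a := h.nonneg w x
  have hb0 : 0 ≤ b := h.nonneg w y
  have hq0 : 0 ≤ q := h.nonneg w p
  have hapi : a ≤ π := h.le_pi w x
  have hbpi : b ≤ π := h.le_pi w y
  have hqpi : q ≤ π := h.le_pi w p
  have t1 : a ≤ b + c := by
    have := h.tri w y x
    rw [h.symm y x, hc] at this
    exact this
  have t2 : b ≤ a + c := by
    have := h.tri w x y
    rw [hc] at this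
    exact this
  have t3 : c ≤ a + b := by
    have := h.tri x w y
    rw [h.symm x w, hc] at this
    exact this
  rcases hpw' with h1 | h1 | h1
  · have h2 : cos b ≤ cos (c - a) := by
      rw [← cos_abs (c - a)]
      apply cos_le_cos_of_nonneg_of_le_pi (abs_nonneg _) hbpi
      rw [abs_le]; constructor <;> linarith
    have h3 := hid a
    have h4 : cos (a - θ) ≤ cos q := cos_le_cos_of_nonneg_of_le_pi hq0 (by linarith) h1
    have h5 := mul_le_mul_of_nonneg_left h2 hbe.le
    have h6 := mul_le_mul_of_nonneg_left h4 hρpos.le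
    linarith
  · have h2 : cos a ≤ cos (c - b) := by
      rw [← cos_abs (c - b)]
      apply cos_le_cos_of_nonneg_of_le_pi (abs_nonneg _) hapi
      rw [abs_le]; constructor <;> linarith
    have h3 := hid (c - b)
    have e3 : c - (c - b) = b := by ring
    rw [e3] at h3
    have e4 : cos (c - b - θ) = cos (b - (c - θ)) := by
      rw [← cos_neg]; congr 1; ring
    rw [e4] at h3
    have h4 : cos (b - (c - θ)) ≤ cos q := cos_le_cos_of_nonneg_of_le_pi hq0 (by linarith) h1
    have h5 := mul_le_mul_of_nonneg_left h2 hal.le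
    have h6 := mul_le_mul_of_nonneg_left h4 hρpos.le
    linarith
  · have hA1 : q ≤ a + θ := by
      have := h.tri w x p
      rw [hpx] at this
      exact this
    have hA2 : q ≤ b + (c - θ) := by
      have := h.tri w y p
      rw [h.symm y p, hpy] at this
      exact this
    have hcosw : cos q = - cos (π - q) := by rw [cos_pi_sub, neg_neg]
    have hcosa : cos a = - cos (π - a) := by rw [cos_pi_sub, neg_neg]
    have hcosb : cos b = - cos (π - b) := by rw [cos_pi_sub, neg_neg]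
    rw [hcosw, hcosa, hcosb]
    suffices h : ρ * cos (π - q) ≤ al * cos (π - a) + be * cos (π - b) by linarith
    exact K1_A2 hal hbe hρpos hθ0 hθpi hθltc hcpi hρid hid (by linarith) (by linarith)
      (by linarith) (by linarith) (by linarith) (by linarith) (by linarith)

theorem K1_core (h : IsAng A) (x y : G) (al be : ℝ) (hal : 0 ≤ al) (hbe : 0 ≤ be) :
    ∃ (p : G) (ρ : ℝ), 0 ≤ ρ ∧
      ρ ^ 2 = al ^ 2 + be ^ 2 + 2 * al * be * cos (A x y) ∧
      ∀ w : G, al * cos (A w x) + be * cos (A w y) ≤ ρ * cos (A w p) := by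
  rcases (h.le_pi x y).lt_or_eq with hlt | heq
  · rcases hal.eq_or_lt with h0 | hal'
    · refine ⟨y, be, hbe, ?_, fun w => ?_⟩
      · rw [← h0]; ring
      · rw [← h0]; simp
    rcases hbe.eq_or_lt with h0 | hbe'
    · refine ⟨x, al, hal, ?_, fun w => ?_⟩
      · rw [← h0]; ring
      · rw [← h0]; simp
    rcases (h.nonneg x y).eq_or_lt with h0 | hpos
    · refine ⟨x, al + be, by linarith, ?_, fun w => ?_⟩
      · rw [← h0, cos_zero]; ring
      · have h1 := h.tri w y x
        have h2 := h.tri w x y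
        rw [h.symm y x, ← h0] at h1
        rw [← h0] at h2
        have h3 : A w y = A w x := by linarith
        rw [h3]; linarith
    · exact K1_caseA h x y al be hal' hbe' (A x y) hpos hlt rfl
  · rcases le_total be al with hle | hle
    · exact K1_caseB h x y al be hbe hle heq
    · obtain ⟨p, ρ, h1, h2, h3⟩ := K1_caseB h y x be al hal hle
        (by rw [h.symm y x]; exact heq)
      refine ⟨p, ρ, h1, ?_, fun w => ?_⟩
      · rw [h2, h.symm y x]; ring
      · have := h3 w
        linarith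

end K1aux

/-- the Euclidean cone over an angular metric satisfies the strong CN inequality -/
theorem cone_cn {G : Type*} {A : G → G → ℝ} (h : IsAng A) (u v : G × ℝ≥0) (τ : ℝ)
    (hτ : τ ∈ Set.Icc (0 : ℝ) 1) :
    ∃ m : G × ℝ≥0, ∀ z : G × ℝ≥0,
      coneQ A z m ≤ (1 - τ) * coneQ A z u + τ * coneQ A z v - τ * (1 - τ) * coneQ A u v := by
  obtain ⟨x, r⟩ := u
  obtain ⟨y, s⟩ := v
  have h1τ : 0 ≤ 1 - τ := by linarith [hτ.2]
  obtain ⟨p, ρ, hρ0, hρ2, hρ⟩ := K1_core h x y ((1 - τ) * (r : ℝ)) (τ * (s : ℝ))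
    (mul_nonneg h1τ r.coe_nonneg) (mul_nonneg hτ.1 s.coe_nonneg)
  obtain ⟨R, hR⟩ : ∃ R : ℝ≥0, (R : ℝ) = ρ := ⟨⟨ρ, hρ0⟩, rfl⟩
  refine ⟨(p, R), ?_⟩
  rintro ⟨w, t⟩
  have h := hρ w
  have ht : (0 : ℝ) ≤ t := t.coe_nonneg
  have h2 := mul_le_mul_of_nonneg_left h (mul_nonneg (by norm_num : (0 : ℝ) ≤ 2) ht)
  unfold coneQ
  simp only [hR]
  nlinarith [h2, hρ2]

end JA
end H467G
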