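import Pool.Agent.H467G.D
set_option autoImplicit false

namespace H467G
namespace JQ
open Real NNReal Filter Topology
theorem aux6074_le {a b : ℝ} (h : a ^ 2 ≤ b ^ 2) (hb : 0 ≤ b) : a ≤ b :=
  le_of_abs_le (by simpa [abs_of_nonneg hb] using sq_le_sq.mp h)

/-- geodesics from the strong CN inequality -/
theorem geod {X : Type*} [MetricSpace X] (h : ∀ x y : X, ∀ τ ∈ Set.Icc (0 : ℝ) 1, ∃ m : X, ∀ z : X,
      dist z m ^ 2 ≤ (1 - τ) * dist z x ^ 2 + τ * dist z y ^ 2 - τ * (1 - τ) * dist x y ^ 2)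
    (x y : X) : ∃ γ : ℝ → X, γ 0 = x ∧ γ (dist x y) = y ∧
      ∀ s ∈ Set.Icc (0:ℝ) (dist x y), ∀ t ∈ Set.Icc (0:ℝ) (dist x y),
        dist (γ s) (γ t) = |s - t| := by
  classical
  have h' : ∀ τ : ℝ, ∃ m : X, τ ∈ Set.Icc (0 : ℝ) 1 → ∀ z : X,
      dist z m ^ 2 ≤ (1 - τ) * dist z x ^ 2 + τ * dist z y ^ 2 - τ * (1 - τ) * dist x y ^ 2 := by
    intro τ
    by_cases hτ : τ ∈ Set.Icc (0 : ℝ) 1
    · obtain ⟨m, hm⟩ := h x y τ hτ
      exact ⟨m, fun _ => hm⟩
    · exact ⟨x, fun h => absurd h hτ⟩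
  choose m hm using h'
  set d := dist x y with hd
  have hd0 : 0 ≤ d := dist_nonneg
  have hx : ∀ τ ∈ Set.Icc (0 : ℝ) 1, dist x (m τ) ≤ τ * d := by
    intro τ hτ
    have h1 := hm τ hτ x
    rw [dist_self, ← hd] at h1
    have h2 : dist x (m τ) ^ 2 ≤ (τ * d) ^ 2 := by nlinarith
    exact aux6074_le h2 (mul_nonneg hτ.1 hd0)
  have hy : ∀ τ ∈ Set.Icc (0 : ℝ) 1, dist y (m τ) ≤ (1 - τ) * d := by
    intro τ hτ
    have h1 := hm τ hτ y
    rw [dist_self, dist_comm y x, ← hd] at h1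
    have h2 : dist y (m τ) ^ 2 ≤ ((1 - τ) * d) ^ 2 := by nlinarith
    exact aux6074_le h2 (mul_nonneg (by linarith [hτ.2]) hd0)
  have key : ∀ s ∈ Set.Icc (0 : ℝ) 1, ∀ t ∈ Set.Icc (0 : ℝ) 1, s ≤ t →
      dist (m s) (m t) = (t - s) * d := by
    intro s hs t ht hst
    have h1 := hm t ht (m s)
    have hxs := hx s hs
    have hys := hy s hs
    have hyt := hy t ht
    rw [dist_comm] at hxs hys
    have e1 : dist (m s) x ^ 2 ≤ (s * d) ^ 2 := pow_le_pow_left₀ dist_nonneg hxs 2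
    have e2 : dist (m s) y ^ 2 ≤ ((1 - s) * d) ^ 2 := pow_le_pow_left₀ dist_nonneg hys 2
    have e3 := mul_le_mul_of_nonneg_left e1 (by linarith [ht.2] : (0 : ℝ) ≤ 1 - t)
    have e4 := mul_le_mul_of_nonneg_left e2 ht.1
    apply le_antisymm
    · have h2 : dist (m s) (m t) ^ 2 ≤ ((t - s) * d) ^ 2 := by nlinarith
      exact aux6074_le h2 (mul_nonneg (by linarith) hd0)
    · have h3 : d ≤ dist x (m s) + dist (m s) (m t) + dist (m t) y := dist_triangle4 _ _ _ _
      have hxs' := hx s hs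
      rw [dist_comm] at hyt
      linarith
  rcases hd0.lt_or_eq with hpos | hzero
  · refine ⟨fun u => m (u / d), ?_, ?_, ?_⟩
    · have h1 := hx 0 ⟨le_rfl, zero_le_one⟩
      rw [zero_mul] at h1
      have h2 : dist x (m 0) = 0 := le_antisymm h1 dist_nonneg
      simp only [zero_div]
      exact (dist_eq_zero.mp h2).symm
    · have h1 := hy 1 ⟨zero_le_one, le_rfl⟩
      rw [sub_self, zero_mul] at h1
      have h2 : dist y (m 1) = 0 := le_antisymm h1 dist_nonneg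
      simp only [div_self hpos.ne']
      exact (dist_eq_zero.mp h2).symm
    · have hmem : ∀ s ∈ Set.Icc (0:ℝ) d, s / d ∈ Set.Icc (0 : ℝ) 1 := fun s hs =>
        ⟨div_nonneg hs.1 hd0, (div_le_one hpos).mpr hs.2⟩
      have hle : ∀ s ∈ Set.Icc (0:ℝ) d, ∀ t ∈ Set.Icc (0:ℝ) d, s ≤ t →
          dist (m (s / d)) (m (t / d)) = t - s := by
        intro s hs t ht hst
        rw [key _ (hmem s hs) _ (hmem t ht) (div_le_div_of_nonneg_right hst hd0)]
        field_simp
      intro s hs t ht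
      rcases le_total s t with hst | hst
      · show dist (m (s / d)) (m (t / d)) = _
        rw [hle s hs t ht hst, abs_of_nonpos (by linarith)]
        ring
      · show dist (m (s / d)) (m (t / d)) = _
        rw [dist_comm, hle t ht s hs hst, abs_of_nonneg (by linarith)]
  · have hxy : x = y := dist_eq_zero.mp hzero.symm
    refine ⟨fun _ => x, rfl, hxy, ?_⟩
    intro s hs t ht
    rw [← hzero] at hs ht
    have h1 : s = 0 := le_antisymm hs.2 hs.1
    have h2 : t = 0 := le_antisymm ht.2 ht.1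
    rw [h1, h2]
    simp

/-- uniqueness of midpoints -/
theorem mid_unique {X : Type*} [MetricSpace X] (h : ∀ x y : X, ∃ m : X, ∀ z : X,
      dist z m ^ 2 + dist x y ^ 2 / 4 ≤ (dist z x ^ 2 + dist z y ^ 2) / 2)
    (x y z z' : X) (h1 : dist z x ≤ dist x y / 2) (h2 : dist z y ≤ dist x y / 2)
    (h3 : dist z' x ≤ dist x y / 2) (h4 : dist z' y ≤ dist x y / 2) : z = z' := by
  obtain ⟨m, hm⟩ := h x y
  have key : ∀ w : X, dist w x ≤ dist x y / 2 → dist w y ≤ dist x y / 2 → w = m := by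
    intro w hw1 hw2
    have e1 : dist w x ^ 2 ≤ (dist x y / 2) ^ 2 := pow_le_pow_left₀ dist_nonneg hw1 2
    have e2 : dist w y ^ 2 ≤ (dist x y / 2) ^ 2 := pow_le_pow_left₀ dist_nonneg hw2 2
    have e3 := hm w
    have e4 : dist w m ^ 2 ≤ 0 := by nlinarith
    have e5 : dist w m = 0 := by
      have := le_antisymm e4 (sq_nonneg _)
      exact pow_eq_zero_iff (two_ne_zero) |>.mp this
    exact dist_eq_zero.mp e5
  rw [key z h1 h2, key z' h3 h4]

end JQ
end H467G
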