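import Pool.Agent.H467G.D
set_option autoImplicit false

namespace H467G
namespace JR
open Real NNReal Filter Topology
theorem lam_pos (l : ℕ) : 0 < lam l := by
  unfold lam
  positivity

theorem lam_ge {l : ℕ} (hl : 32 ≤ l) : 8 * π / l ≤ lam l := by
  unfold lam
  have h1 : 2 ^ Nat.log 2 (l / 8) ≤ l / 8 := Nat.pow_log_le_self 2 (by omega)
  have h2 : 8 * 2 ^ Nat.log 2 (l / 8) ≤ l := by omega
  have h3 : (8 : ℝ) * 2 ^ Nat.log 2 (l / 8) ≤ l := by exact_mod_cast h2
  have hl0 : (0 : ℝ) < l := by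
    have : 0 < l := by omega
    exact_mod_cast this
  rw [div_le_div_iff₀ hl0 (by positivity)]
  have := Real.pi_pos
  nlinarith

theorem lam_le {l : ℕ} (hl : 32 ≤ l) : lam l ≤ 16 * π / l := by
  unfold lam
  have h1 : l / 8 < 2 ^ (Nat.log 2 (l / 8) + 1) := Nat.lt_pow_succ_log_self (by norm_num) _
  have h2 : l ≤ 16 * 2 ^ Nat.log 2 (l / 8) := by
    rw [pow_succ] at h1
    omega
  have h3 : (l : ℝ) ≤ 16 * 2 ^ Nat.log 2 (l / 8) := by exact_mod_cast h2
  have hl0 : (0 : ℝ) < l := by
    have : 0 < l := by omega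
    exact_mod_cast this
  rw [div_le_div_iff₀ (by positivity) hl0]
  have := Real.pi_pos
  nlinarith

theorem lam_le_pi4 {l : ℕ} (hl : 32 ≤ l) : lam l ≤ π / 4 := by
  unfold lam
  have h1 : 2 ≤ Nat.log 2 (l / 8) := by
    apply Nat.le_log_of_pow_le (by norm_num)
    omega
  have h2 : (4 : ℝ) ≤ 2 ^ Nat.log 2 (l / 8) := by
    calc (4 : ℝ) = 2 ^ 2 := by norm_num
      _ ≤ 2 ^ Nat.log 2 (l / 8) := pow_le_pow_right₀ (by norm_num) h1
  have := Real.pi_pos
  gcongr

theorem cos_lam_pos {l : ℕ} (hl : 32 ≤ l) : 0 < cos (lam l) := by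
  apply cos_pos_of_mem_Ioo
  have h1 := lam_pos l
  have h2 := lam_le_pi4 hl
  have := Real.pi_pos
  constructor <;> linarith

theorem cos_lam_ge {l : ℕ} (hl : 32 ≤ l) : 1 - 1280 / (l : ℝ) ^ 2 ≤ cos (lam l) := by
  have h1 := one_sub_sq_div_two_le_cos (x := lam l)
  have h2 := lam_le hl
  have h3 := lam_pos l
  have hl0 : (0 : ℝ) < l := by
    have : 0 < l := by omega
    exact_mod_cast this
  have hp : π ^ 2 ≤ 10 := by
    have := pi_lt_d2
    have := Real.pi_pos
    nlinarith
  have h4 : (lam l) ^ 2 ≤ (16 * π / l) ^ 2 := by gcongr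
  have h5 : (16 * π / l) ^ 2 = 256 * π ^ 2 / (l : ℝ) ^ 2 := by
    rw [div_pow]
    ring
  have h6 : 256 * π ^ 2 / (l : ℝ) ^ 2 ≤ 2560 / (l : ℝ) ^ 2 := by
    gcongr
    linarith
  have h7 : (2560 : ℝ) / (l : ℝ) ^ 2 = 2 * (1280 / (l : ℝ) ^ 2) := by ring
  linarith

theorem rho_pos (L : ℕ) : 0 < rho L := by
  unfold rho
  apply Finset.prod_pos
  intro l hl
  exact cos_lam_pos (Finset.mem_Ico.1 hl).1

theorem rho_succ {L : ℕ} (hL : 32 ≤ L) : rho (L + 1) = rho L * cos (lam L) := by
  unfold rho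
  rw [Finset.prod_Ico_succ_top hL]

theorem rho_anti : Antitone rho := by
  apply antitone_nat_of_succ_le
  intro L
  rcases le_or_gt 32 L with h | h
  · rw [rho_succ h]
    exact mul_le_of_le_one_right (rho_pos L).le (cos_le_one _)
  · unfold rho
    rw [Finset.Ico_eq_empty (by omega), Finset.Ico_eq_empty (by omega)]

/-- the radii stay bounded below -/
theorem rho_lower : ∃ δ : ℝ, 0 < δ ∧ ∀ L, δ ≤ rho L := by
  have key : ∀ L : ℕ, 3000 ≤ L → rho 3000 * (1 / 2 + 1280 / ((L : ℝ) - 1)) ≤ rho L := by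
    intro L hL
    induction L, hL using Nat.le_induction with
    | base =>
      have h1 := rho_pos 3000
      have h2 : (1 / 2 + 1280 / (((3000 : ℕ) : ℝ) - 1)) ≤ (1 : ℝ) := by norm_num
      exact mul_le_of_le_one_right h1.le h2
    | succ L hL ih =>
      rw [rho_succ (L := L) (by omega)]
      have hx : (3000 : ℝ) ≤ L := by exact_mod_cast hL
      have h1 := cos_lam_ge (l := L) (by omega)
      have h2 := cos_lam_pos (l := L) (by omega)
      have h3 := rho_pos 3000
      set x : ℝ := (L : ℝ) with hxdef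
      have hx0 : 0 < x := by linarith
      have hx1 : 0 < x - 1 := by linarith
      have h4 : 1280 / (x - 1) ≤ 1 / 2 := by
        rw [div_le_iff₀ hx1]
        linarith
      have h5 : 1280 / x + 1280 / x ^ 2 ≤ 1280 / (x - 1) := by
        have e : 1280 / (x - 1) - (1280 / x + 1280 / x ^ 2) = 1280 / (x ^ 2 * (x - 1)) := by
          field_simp
          ring
        have : 0 ≤ 1280 / (x ^ 2 * (x - 1)) := by positivity
        linarith
      have h6 : 0 ≤ 1280 / x ^ 2 := by positivity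
      have h7 : 0 < 1280 / (x - 1) := by positivity
      have h8 : 1 / 2 + 1280 / x ≤ (1 / 2 + 1280 / (x - 1)) * cos (lam L) := by
        have h9 : (1 / 2 + 1280 / (x - 1)) * (1 - 1280 / x ^ 2) ≤
            (1 / 2 + 1280 / (x - 1)) * cos (lam L) := by gcongr
        have h10 : (1 / 2 + 1280 / (x - 1)) * (1280 / x ^ 2) ≤ 1 * (1280 / x ^ 2) := by
          gcongr
          linarith
        nlinarith
      have e2 : ((L + 1 : ℕ) : ℝ) - 1 = x := by
        push_cast
        ring
      rw [e2]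
      calc rho 3000 * (1 / 2 + 1280 / x)
          ≤ rho 3000 * ((1 / 2 + 1280 / (x - 1)) * cos (lam L)) := by gcongr
        _ = (rho 3000 * (1 / 2 + 1280 / (x - 1))) * cos (lam L) := by ring
        _ ≤ rho L * cos (lam L) := by gcongr
  refine ⟨rho 3000 / 2, by have := rho_pos 3000; positivity, fun L => ?_⟩
  have h3 := rho_pos 3000
  rcases le_or_gt 3000 L with h | h
  · refine le_trans ?_ (key L h)
    have hx : (3000 : ℝ) ≤ L := by exact_mod_cast h
    have h7 : 0 ≤ 1280 / ((L : ℝ) - 1) := by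
      apply div_nonneg (by norm_num)
      linarith
    nlinarith
  · have := rho_anti h.le
    linarith

/-- the heights grow linearly in the logarithm of the level -/
theorem ht_growth : ∀ L L' : ℕ, 32 ≤ L → 2 * L ≤ L' → π ≤ ht L' - ht L := by
  intro L L' hL hL'
  unfold ht
  rw [← Finset.sum_Ico_consecutive _ hL (show L ≤ L' by omega), add_sub_cancel_left,
    ← Finset.sum_Ico_consecutive _ (show L ≤ 2 * L by omega) hL']
  have h1 : 0 ≤ ∑ l ∈ Finset.Ico (2 * L) L', lam l := Finset.sum_nonneg (fun l _ => (lam_pos l).le)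
  have hL0 : (0 : ℝ) < L := by
    have : 0 < L := by omega
    exact_mod_cast this
  have h2 : ∑ _l ∈ Finset.Ico L (2 * L), (4 * π / L) ≤ ∑ l ∈ Finset.Ico L (2 * L), lam l := by
    apply Finset.sum_le_sum
    intro l hl
    rw [Finset.mem_Ico] at hl
    refine le_trans ?_ (lam_ge (by omega))
    have hl0 : (0 : ℝ) < l := by
      have : 0 < l := by omega
      exact_mod_cast this
    have hl2 : (l : ℝ) ≤ 2 * L := by
      have : l ≤ 2 * L := by omega
      exact_mod_cast this
    rw [div_le_div_iff₀ hL0 hl0]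
    have := Real.pi_pos
    nlinarith
  rw [Finset.sum_const, Nat.card_Ico, nsmul_eq_mul] at h2
  have h3 : ((2 * L - L : ℕ) : ℝ) * (4 * π / L) = 4 * π := by
    have : 2 * L - L = L := by omega
    rw [this]
    field_simp
  rw [h3] at h2
  have := Real.pi_pos
  linarith

end JR
end H467G
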