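import Pool.Agent.H467G.D
import Pool.Agent.H467G.JA
import Pool.Agent.H467G.JR
import Pool.Agent.H467G.JQ
import Pool.Agent.H665M.L1
import Pool.Agent.H665M.J5
set_option autoImplicit false
namespace H467G
open Real NNReal Filter Topology

theorem cone_form {G : Type*} {A : G → G → ℝ} (h : IsAng A) : Bac815.IsCNForm (coneQ A) where
  nonneg u v := by
    unfold coneQ
    have h1 := cos_le_one (A u.1 v.1)
    have h2 : (0:ℝ) ≤ u.2 := u.2.coe_nonneg
    have h3 : (0:ℝ) ≤ v.2 := v.2.coe_nonneg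
    have h4 := mul_le_mul_of_nonneg_left h1 (mul_nonneg h2 h3)
    nlinarith [sq_nonneg ((u.2 : ℝ) - v.2)]
  self u := by
    unfold coneQ
    rw [h.self, cos_zero]; ring
  symm u v := by
    unfold coneQ
    rw [h.symm u.1 v.1]; ring
  cn u v τ hτ := JA.cone_cn h u v τ hτ

theorem rho_succ {L : ℕ} (hL : 32 ≤ L) : rho (L + 1) = rho L * cos (lam L) := by
  unfold rho
  rw [Finset.prod_Ico_succ_top hL]

theorem final (par : ℕ → Bool → ℕ) (G : Type) (A : G → G → ℝ) (c : ℕ → G) (hA : IsAng A)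
    (h1 : ∀ i, 2 ^ 33 ≤ i → ∀ b, Nat.log 2 (par i b) + 1 = Nat.log 2 i)
    (h2 : ∀ i, 2 ^ 33 ≤ i → ∀ b, A (c i) (c (par i b)) = lam (Nat.log 2 i - 1))
    (h3 : ∀ i, 2 ^ 33 ≤ i → A (c (par i false)) (c (par i true)) = 2 * lam (Nat.log 2 i - 1))
    (h4 : ∀ v w, min π |ht (Nat.log 2 v) - ht (Nat.log 2 w)| ≤ A (c v) (c w)) :
    ¬ (∀ (X : Type) [MetricSpace X] [CompleteSpace X],
      (∀ x y : X, ∃ m : X, ∀ z : X,
          dist z m ^ 2 + dist x y ^ 2 / 4 ≤ (dist z x ^ 2 + dist z y ^ 2) / 2) →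
      ∀ K : Set X, IsCompact K →
        IsCompact (⋂₀ {C : Set X | IsClosed C ∧ K ⊆ C ∧
          ∀ x ∈ C, ∀ y ∈ C, ∀ γ : ℝ → X, γ 0 = x → γ (dist x y) = y →
            (∀ s ∈ Set.Icc (0:ℝ) (dist x y), ∀ t ∈ Set.Icc (0:ℝ) (dist x y),
              dist (γ s) (γ t) = |s - t|) →
            ∀ t ∈ Set.Icc (0:ℝ) (dist x y), γ t ∈ C})) := by
  intro H
  have hQ := cone_form hA
  let _ : PseudoMetricSpace (G × ℝ≥0) := hQ.pm
  have hd : ∀ u v : G × ℝ≥0, dist u v ^ 2 = coneQ A u v := fun u v => Real.sq_sqrt (hQ.nonneg _ _)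
  have hstrong : ∀ x y : G × ℝ≥0, ∀ τ ∈ Set.Icc (0 : ℝ) 1, ∃ m : G × ℝ≥0, ∀ z : G × ℝ≥0,
      dist z m ^ 2 ≤ (1 - τ) * dist z x ^ 2 + τ * dist z y ^ 2 - τ * (1 - τ) * dist x y ^ 2 := by
    intro x y τ hτ
    obtain ⟨m, hm⟩ := hQ.cn x y τ hτ
    refine ⟨m, fun z => ?_⟩
    rw [hd, hd, hd, hd]
    exact hm z
  have hX := Bac815.J5_completion hstrong
  have hmid : ∀ x y : UniformSpace.Completion (G × ℝ≥0), ∃ m : UniformSpace.Completion (G × ℝ≥0),
      ∀ z : UniformSpace.Completion (G × ℝ≥0),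
        dist z m ^ 2 + dist x y ^ 2 / 4 ≤ (dist z x ^ 2 + dist z y ^ 2) / 2 := by
    intro x y
    obtain ⟨m, hm⟩ := hX x y (1/2) (by norm_num)
    refine ⟨m, fun z => ?_⟩
    have := hm z
    linarith
  obtain ⟨δ, hδ, hrho⟩ := JR.rho_lower
  have hrho0 : ∀ L, 0 ≤ rho L := fun L => hδ.le.trans (hrho L)
  set R : ℕ → ℝ≥0 := fun L => ⟨rho L, hrho0 L⟩ with hR
  have hRc : ∀ L, ((R L : ℝ≥0) : ℝ) = rho L := fun L => rfl
  set pt : ℕ → UniformSpace.Completion (G × ℝ≥0) := fun v => (((c v, R (Nat.log 2 v)) : G × ℝ≥0) :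
    UniformSpace.Completion (G × ℝ≥0)) with hpt
  have hptd : ∀ v w, dist (pt v) (pt w) ^ 2 = rho (Nat.log 2 v) ^ 2 + rho (Nat.log 2 w) ^ 2 -
      2 * rho (Nat.log 2 v) * rho (Nat.log 2 w) * cos (A (c v) (c w)) := by
    intro v w
    rw [hpt]
    simp only [UniformSpace.Completion.dist_eq]
    rw [hd]
    rfl
  have hK : IsCompact (pt '' (Set.Ico (2 ^ 32) (2 ^ 33))) :=
    ((Set.finite_Ico _ _).image _).isCompact
  have hcomp := H (UniformSpace.Completion (G × ℝ≥0)) hmid _ hK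
  -- all points lie in the hull
  have hhull : ∀ v, 2 ^ 32 ≤ v → pt v ∈ ⋂₀ {C : Set (UniformSpace.Completion (G × ℝ≥0)) |
      IsClosed C ∧ (pt '' (Set.Ico (2 ^ 32) (2 ^ 33))) ⊆ C ∧
          ∀ x ∈ C, ∀ y ∈ C, ∀ γ : ℝ → UniformSpace.Completion (G × ℝ≥0), γ 0 = x → γ (dist x y) = y →
            (∀ s ∈ Set.Icc (0:ℝ) (dist x y), ∀ t ∈ Set.Icc (0:ℝ) (dist x y),
              dist (γ s) (γ t) = |s - t|) →
            ∀ t ∈ Set.Icc (0:ℝ) (dist x y), γ t ∈ C} := by
    intro v hv
    rw [Set.mem_sInter]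
    rintro C ⟨_, hCK, hCc⟩
    induction v using Nat.strong_induction_on with
    | _ v ih =>
      by_cases hv2 : v < 2 ^ 33
      · exact hCK ⟨v, ⟨hv, hv2⟩, rfl⟩
      · push Not at hv2
        have hp := h1 v hv2
        have h33 : 33 ≤ Nat.log 2 v := by
          have := Nat.log_mono_right (b := 2) hv2
          rwa [Nat.log_pow (by norm_num)] at this
        have hlp : ∀ b, Nat.log 2 (par v b) = Nat.log 2 v - 1 := fun b => by have := hp b; omega
        have hin : ∀ b, pt (par v b) ∈ C := by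
          intro b
          apply ih
          · by_contra hcon
            push Not at hcon
            have := Nat.log_mono_right (b := 2) hcon
            have := hp b
            omega
          · by_contra hcon
            push Not at hcon
            have h5 : Nat.log 2 (par v b) < 32 := Nat.log_lt_of_lt_pow' (by norm_num) hcon
            have := hp b
            omega
        obtain ⟨γ, hγ0, hγ1, hγi⟩ := JQ.geod hX (pt (par v false)) (pt (par v true))
        set d := dist (pt (par v false)) (pt (par v true)) with hdd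
        have hd0 : 0 ≤ d := dist_nonneg
        have hmem := hCc _ (hin false) _ (hin true) γ hγ0 hγ1 hγi (d / 2) ⟨by linarith, by linarith⟩
        set L := Nat.log 2 v - 1 with hL
        have hL32 : 32 ≤ L := by omega
        have hvL : Nat.log 2 v = L + 1 := by omega
        have hd2 : d ^ 2 = 4 * (rho L ^ 2 * sin (lam L) ^ 2) := by
          rw [hdd, hptd, hlp, hlp, h3 v hv2, ← hL, cos_two_mul]
          have := sin_sq_add_cos_sq (lam L)
          rw [show sin (lam L) ^ 2 = 1 - cos (lam L) ^ 2 by linarith]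
          ring
        have hd3 : ∀ b, dist (pt v) (pt (par v b)) ^ 2 = rho L ^ 2 * sin (lam L) ^ 2 := by
          intro b
          rw [hptd, hlp, hvL, h2 v hv2, ← hL, rho_succ hL32]
          have := sin_sq_add_cos_sq (lam L)
          rw [show sin (lam L) ^ 2 = 1 - cos (lam L) ^ 2 by linarith]
          ring
        have hd4 : ∀ b, dist (pt v) (pt (par v b)) ≤ d / 2 := by
          intro b
          apply le_of_sq_le_sq _ (by linarith)
          rw [hd3, div_pow, hd2]
          linarith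
        have he : pt v = γ (d / 2) := by
          refine JQ.mid_unique hmid (pt (par v false)) (pt (par v true)) _ _ (hd4 false) (hd4 true) ?_ ?_
          · have := hγi (d/2) ⟨by linarith, by linarith⟩ 0 ⟨le_refl _, hd0⟩
            rw [hγ0, sub_zero, abs_of_nonneg (by linarith)] at this
            exact this.le
          · have := hγi (d/2) ⟨by linarith, by linarith⟩ d ⟨hd0, le_refl _⟩
            rw [hγ1] at this
            rw [this, abs_le]
            constructor <;> linarith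
        rw [he]
        exact hmem
  -- a separated sequence
  have hsep : ∀ n n' : ℕ, n < n' → 2 * δ ≤ dist (pt (2 ^ (32 * 2 ^ n))) (pt (2 ^ (32 * 2 ^ n'))) := by
    intro n n' hn
    have hl : ∀ n : ℕ, Nat.log 2 (2 ^ (32 * 2 ^ n)) = 32 * 2 ^ n := fun n => Nat.log_pow (by norm_num) _
    have hpow : 2 * (32 * 2 ^ n) ≤ 32 * 2 ^ n' := by
      have : 2 ^ (n + 1) ≤ 2 ^ n' := Nat.pow_le_pow_right (by norm_num) hn
      rw [pow_succ] at this
      omega
    have h32 : 32 ≤ 32 * 2 ^ n := by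
      have := Nat.one_le_two_pow (n := n)
      omega
    have hg := JR.ht_growth _ _ h32 hpow
    have ha := h4 (2 ^ (32 * 2 ^ n)) (2 ^ (32 * 2 ^ n'))
    rw [hl, hl] at ha
    have habs : π ≤ |ht (32 * 2 ^ n) - ht (32 * 2 ^ n')| := by
      rw [abs_sub_comm]
      exact hg.trans (le_abs_self _)
    rw [min_eq_left habs] at ha
    have hpi : A (c (2 ^ (32 * 2 ^ n))) (c (2 ^ (32 * 2 ^ n'))) = π := le_antisymm (hA.le_pi _ _) ha
    apply le_of_sq_le_sq _ dist_nonneg
    rw [hptd, hl, hl, hpi, cos_pi]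
    have r1 := hrho (32 * 2 ^ n)
    have r2 := hrho (32 * 2 ^ n')
    nlinarith
  obtain ⟨a, _, φ, hφ, hta⟩ := hcomp.tendsto_subseq (x := fun n => pt (2 ^ (32 * 2 ^ n))) (fun n => hhull _ (by
    apply Nat.pow_le_pow_right (by norm_num)
    have := Nat.one_le_two_pow (n := n)
    omega))
  have hcau := hta.cauchySeq
  rw [Metric.cauchySeq_iff'] at hcau
  obtain ⟨N, hN⟩ := hcau (2 * δ) (by linarith)
  have h6 := hN (N + 1) (by omega)
  have h7 := hsep (φ N) (φ (N + 1)) (hφ (by omega))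
  rw [dist_comm] at h7
  simp only [Function.comp] at h6
  linarith

end H467G
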