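import Pool.Agent.H467G.D
set_option autoImplicit false

namespace H467G
namespace JB
open Real NNReal Filter Topology
theorem ul_abs {U : Filter ℕ} [U.NeBot] {f g ε : ℕ → ℝ} {a b : ℝ} (hf : Tendsto f U (𝓝 a))
    (hg : Tendsto g U (𝓝 b)) (hε : Tendsto ε U (𝓝 0)) (h : ∀ᶠ k in U, |f k - g k| ≤ ε k) :
    a = b := by
  have h1 : Tendsto (fun k => |f k - g k|) U (𝓝 |a - b|) := (hf.sub hg).abs
  have h2 : |a - b| ≤ 0 := le_of_tendsto_of_tendsto h1 hε h
  have h3 := abs_nonpos_iff.mp h2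
  linarith

/-- ultralimit of approximate angular metrics -/
theorem ultra {W : Type} (A : ℕ → W → W → ℝ) (ε : ℕ → ℝ) (hε : Tendsto ε atTop (𝓝 0))
    (h0 : ∀ k x, A k x x = 0) (hs : ∀ k x y, A k x y = A k y x)
    (ht : ∀ k x y z, A k x z ≤ A k x y + A k y z)
    (hn : ∀ k x y, 0 ≤ A k x y) (hp : ∀ k x y, A k x y ≤ π)
    (hM : ∀ k x y, A k x y < π → ∀ θ, 0 ≤ θ → θ ≤ A k x y → ∃ p,
      |A k x p - θ| ≤ ε k ∧ |A k p y - (A k x y - θ)| ≤ ε k ∧
      ∀ w, A k w p ≤ A k w x - θ + ε k ∨ A k w p ≤ A k w y - (A k x y - θ) + ε k ∨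
        2 * π ≤ A k x y + A k w x + A k w y) :
    ∃ A' : (ℕ → W) → (ℕ → W) → ℝ, IsAng A' ∧
      (∀ u v c, (∀ᶠ k in atTop, A k (u k) (v k) = c) → A' u v = c) ∧
      (∀ u v c, (∀ᶠ k in atTop, c ≤ A k (u k) (v k)) → c ≤ A' u v) := by
  let U : Ultrafilter ℕ := hyperfilter ℕ
  have hU : (U : Filter ℕ) ≤ atTop := Nat.hyperfilter_le_atTop
  have hεU : Tendsto ε U (𝓝 0) := hε.mono_left hU
  have hex : ∀ u v : ℕ → W, ∃ a, a ∈ Set.Icc 0 π ∧ Tendsto (fun k => A k (u k) (v k)) U (𝓝 a) := by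
    intro u v
    have h1 : ((U.map (fun k => A k (u k) (v k)) : Ultrafilter ℝ) : Filter ℝ) ≤ 𝓟 (Set.Icc 0 π) := by
      rw [Ultrafilter.coe_map]
      exact tendsto_principal.mpr (Filter.Eventually.of_forall (fun k => ⟨hn k _ _, hp k _ _⟩))
    obtain ⟨a, ha, h2⟩ := (isCompact_Icc (a := (0 : ℝ)) (b := π)).ultrafilter_le_nhds _ h1
    exact ⟨a, ha, h2⟩
  choose A' hA1 hA2 using hex
  refine ⟨A', ⟨?_, ?_, ?_, ?_, ?_, ?_⟩, ?_, ?_⟩
  · intro x
    have h1 : Tendsto (fun k => A k (x k) (x k)) U (𝓝 0) := by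
      simp only [h0]
      exact tendsto_const_nhds
    exact tendsto_nhds_unique (hA2 x x) h1
  · intro x y
    have h1 : Tendsto (fun k => A k (x k) (y k)) U (𝓝 (A' y x)) := by
      have := hA2 y x
      refine this.congr (fun k => ?_)
      rw [hs]
    exact tendsto_nhds_unique (hA2 x y) h1
  · intro x y z
    exact le_of_tendsto_of_tendsto' (hA2 x z) ((hA2 x y).add (hA2 y z)) (fun k => ht k _ _ _)
  · intro x y
    exact (hA1 x y).1
  · intro x y
    exact (hA1 x y).2
  · intro x y hxy θ hθ0 hθ1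
    have hev : ∀ᶠ k in (U : Filter ℕ), A k (x k) (y k) < π := (hA2 x y).eventually_lt_const hxy
    have hθk : Tendsto (fun k => min θ (A k (x k) (y k))) U (𝓝 θ) := by
      have h1 := (tendsto_const_nhds (x := θ) (f := (U : Filter ℕ))).min (hA2 x y)
      rwa [min_eq_left hθ1] at h1
    have hch : ∀ k, ∃ p, A k (x k) (y k) < π →
      |A k (x k) p - min θ (A k (x k) (y k))| ≤ ε k ∧
      |A k p (y k) - (A k (x k) (y k) - min θ (A k (x k) (y k)))| ≤ ε k ∧
      ∀ w, A k w p ≤ A k w (x k) - min θ (A k (x k) (y k)) + ε k ∨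
        A k w p ≤ A k w (y k) - (A k (x k) (y k) - min θ (A k (x k) (y k))) + ε k ∨
        2 * π ≤ A k (x k) (y k) + A k w (x k) + A k w (y k) := by
      intro k
      by_cases hk : A k (x k) (y k) < π
      · obtain ⟨p, hp⟩ := hM k (x k) (y k) hk (min θ (A k (x k) (y k)))
          (le_min hθ0 (hn k _ _)) (min_le_right _ _)
        exact ⟨p, fun _ => hp⟩
      · exact ⟨x k, fun h => absurd h hk⟩
    choose p hpk using hch
    refine ⟨p, ?_, ?_, ?_⟩
    · apply ul_abs (hA2 x p) hθk hεU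
      filter_upwards [hev] with k hk
      exact (hpk k hk).1
    · apply ul_abs (hA2 p y) ((hA2 x y).sub hθk) hεU
      filter_upwards [hev] with k hk
      exact (hpk k hk).2.1
    · intro w
      have hor : ∀ᶠ k in (U : Filter ℕ),
          A k (w k) (p k) ≤ A k (w k) (x k) - min θ (A k (x k) (y k)) + ε k ∨
          (A k (w k) (p k) ≤ A k (w k) (y k) - (A k (x k) (y k) - min θ (A k (x k) (y k))) + ε k ∨
          2 * π ≤ A k (x k) (y k) + A k (w k) (x k) + A k (w k) (y k)) := by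
        filter_upwards [hev] with k hk
        exact (hpk k hk).2.2 (w k)
      rw [Ultrafilter.eventually_or, Ultrafilter.eventually_or] at hor
      rcases hor with h | h | h
      · left
        have h1 := le_of_tendsto_of_tendsto (hA2 w p) (((hA2 w x).sub hθk).add hεU) h
        rwa [add_zero] at h1
      · right; left
        have h1 := le_of_tendsto_of_tendsto (hA2 w p)
          (((hA2 w y).sub ((hA2 x y).sub hθk)).add hεU) h
        rwa [add_zero] at h1
      · right; right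
        exact ge_of_tendsto (((hA2 x y).add (hA2 w x)).add (hA2 w y)) h
  · intro u v c h
    have h1 : Tendsto (fun k => A k (u k) (v k)) U (𝓝 c) := by
      have h2 : ∀ᶠ k in (U : Filter ℕ), c = A k (u k) (v k) := (h.filter_mono hU).mono (fun k hk => hk.symm)
      exact tendsto_const_nhds.congr' h2
    exact tendsto_nhds_unique (hA2 u v) h1
  · intro u v c h
    exact ge_of_tendsto (hA2 u v) (h.filter_mono hU)

end JB
end H467G
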