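import Pool.Agent.H467G.D
set_option autoImplicit false

namespace H467G
namespace JC0
open Real NNReal Filter Topology
theorem back {V : Type*} (Adj : V → V → Prop) (hi : ∀ x, ¬ Adj x x) (g : ℕ) (hc : NoCyc Adj g) :
    Back Adj g := by
  intro n hn0 hng f hf hfn
  classical
  have hex : ∃ d, 0 < d ∧ ∃ i, i + d ≤ n ∧ f i = f (i + d) :=
    ⟨n, hn0, 0, by omega, by rw [zero_add]; exact hfn.symm⟩
  obtain ⟨hd0, i, hid, hfi⟩ := Nat.find_spec hex
  set d := Nat.find hex with hd
  have hmin : ∀ m, m < d → 0 < m → ∀ j, j + m ≤ n → f j ≠ f (j + m) := by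
    intro m hm hm0 j hj he
    exact Nat.find_min hex hm ⟨hm0, j, hj, he⟩
  by_cases h1 : d = 1
  · exfalso
    rw [h1] at hfi hid
    have := hf i (by omega)
    rw [← hfi] at this
    exact hi _ this
  by_cases h2 : d = 2
  · refine ⟨i, by omega, ?_⟩
    rw [h2] at hfi
    exact hfi
  exfalso
  have h3 : 3 ≤ d := by omega
  have hdz : (0 : ℤ) < (d : ℤ) := by exact_mod_cast hd0
  have hdz' : (d : ℤ) ≠ 0 := hdz.ne'
  apply hc d (by omega) (fun t : ℤ => f (i + (t % (d : ℤ)).toNat))
  have hr : ∀ t : ℤ, (((t % (d : ℤ)).toNat : ℕ) : ℤ) = t % d := fun t =>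
    Int.toNat_of_nonneg (Int.emod_nonneg _ hdz')
  have hrlt : ∀ t : ℤ, (t % (d : ℤ)).toNat < d := by
    intro t
    have := Int.emod_lt_of_pos t hdz
    have := hr t
    omega
  refine ⟨h3, ?_, ?_, ?_⟩
  · intro t
    simp
  · intro s t hst
    simp only at hst
    have hs := hrlt s
    have ht := hrlt t
    have heq : (s % (d : ℤ)).toNat = (t % (d : ℤ)).toNat := by
      rcases lt_trichotomy (s % (d : ℤ)).toNat (t % (d : ℤ)).toNat with h | h | h
      · exfalso
        have := hmin ((t % (d : ℤ)).toNat - (s % (d : ℤ)).toNat) (by omega) (by omega)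
          (i + (s % (d : ℤ)).toNat) (by omega)
        apply this
        rw [hst]
        congr 1
        omega
      · exact h
      · exfalso
        have := hmin ((s % (d : ℤ)).toNat - (t % (d : ℤ)).toNat) (by omega) (by omega)
          (i + (t % (d : ℤ)).toNat) (by omega)
        apply this
        rw [← hst]
        congr 1
        omega
    have h4 : s % (d : ℤ) = t % d := by
      rw [← hr s, ← hr t, heq]
    exact Int.dvd_of_emod_eq_zero (Int.emod_eq_emod_iff_emod_sub_eq_zero.1 h4)
  · intro t
    show Adj (f (i + (t % (d : ℤ)).toNat)) (f (i + ((t + 1) % (d : ℤ)).toNat))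
    have hlt := hrlt t
    have hadj := hf (i + (t % (d : ℤ)).toNat) (by omega)
    have hmod : (t + 1) % (d : ℤ) = (t % d + 1) % d := by
      rw [Int.emod_add_emod]
    by_cases hlast : (t % (d : ℤ)).toNat + 1 < d
    · have e : ((t + 1) % (d : ℤ)).toNat = (t % (d : ℤ)).toNat + 1 := by
        have h5 : (t % (d:ℤ) + 1) % d = t % d + 1 := by
          apply Int.emod_eq_of_lt
          · have := Int.emod_nonneg t hdz'
            omega
          · have := hr t
            omega
        rw [hmod, h5]
        have := hr t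
        omega
      rw [e]
      exact hadj
    · have e : ((t + 1) % (d : ℤ)).toNat = 0 := by
        have h5 : t % (d:ℤ) + 1 = d := by
          have := hr t
          omega
        rw [hmod, h5, Int.emod_self]
        rfl
      rw [e, add_zero]
      have e2 : i + (t % (d : ℤ)).toNat + 1 = i + d := by omega
      rw [e2, ← hfi] at hadj
      exact hadj

end JC0
end H467G
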