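import Pool.Agent.H467G.D
set_option autoImplicit false

namespace H467G
namespace JC1
open Real NNReal Filter Topology
/-- two walks without backtracking with the same ends and short total length have the same length -/
theorem nb_unique {V : Type*} (Adj : V → V → Prop) (hs : ∀ x y, Adj x y → Adj y x)
    (g : ℕ) (hB : Back Adj g) (a l : ℕ) (f h : ℕ → V)
    (hf : ∀ i < a, Adj (f i) (f (i + 1))) (hh : ∀ i < l, Adj (h i) (h (i + 1)))
    (h0 : f 0 = h 0) (h1 : f a = h l)
    (hf2 : ∀ i, i + 2 ≤ a → f i ≠ f (i + 2)) (hh2 : ∀ i, i + 2 ≤ l → h i ≠ h (i + 2))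
    (hal : a + l < g) : a = l := by
  obtain ⟨n, hn⟩ : ∃ n, a + l = n := ⟨_, rfl⟩
  induction n using Nat.strong_induction_on generalizing a l with
  | _ n ih =>
    rcases Nat.eq_zero_or_pos (a + l) with hz | hpos
    · omega
    · let K : ℕ → V := fun t => if t ≤ a then f t else h (l - (t - a))
      have hK1 : ∀ t, t ≤ a → K t = f t := fun t ht => if_pos ht
      have hK2 : ∀ t, a ≤ t → K t = h (l - (t - a)) := by
        intro t ht
        rcases Nat.eq_or_lt_of_le ht with he | hlt
        · rw [hK1 t he.symm.le, ← he, h1, Nat.sub_self, Nat.sub_zero]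
        · exact if_neg (by omega)
      have hw : ∀ i < a + l, Adj (K i) (K (i + 1)) := by
        intro i hi
        rcases lt_or_ge i a with hia | hia
        · rw [hK1 i hia.le, hK1 (i + 1) hia]
          exact hf i hia
        · rw [hK2 i hia, hK2 (i + 1) (by omega)]
          apply hs
          have := hh (l - (i + 1 - a)) (by omega)
          have h2 : l - (i + 1 - a) + 1 = l - (i - a) := by omega
          rwa [h2] at this
      have hc : K (a + l) = K 0 := by
        rw [hK2 (a + l) (by omega), hK1 0 (Nat.zero_le _), h0]
        congr 1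
        omega
      obtain ⟨i, hi, hKi⟩ := hB (a + l) hpos hal K hw hc
      rcases le_or_gt (i + 2) a with c1 | c1
      · exfalso
        rw [hK1 i (by omega), hK1 (i + 2) c1] at hKi
        exact hf2 i c1 hKi
      · rcases le_or_gt a i with c2 | c2
        · exfalso
          rw [hK2 i c2, hK2 (i + 2) (by omega)] at hKi
          have h2 : l - (i + 2 - a) + 2 = l - (i - a) := by omega
          apply hh2 (l - (i + 2 - a)) (by omega)
          rw [h2, hKi]
        · have hia : i = a - 1 := by omega
          have ha1 : 1 ≤ a := by omega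
          have hl1 : 1 ≤ l := by omega
          rw [hK1 i (by omega), hK2 (i + 2) (by omega)] at hKi
          have h3 : f (a - 1) = h (l - 1) := by
            have e1 : l - (i + 2 - a) = l - 1 := by omega
            rw [e1, hia] at hKi
            exact hKi
          have := ih (a - 1 + (l - 1)) (by omega) (a - 1) (l - 1) (fun i hi => hf i (by omega))
            (fun i hi => hh i (by omega)) h3 (fun i hi => hf2 i (by omega))
            (fun i hi => hh2 i (by omega)) (by omega) rfl
          omega

/-- shortest walks do not backtrack -/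
theorem min_nb {V : Type*} (Adj : V → V → Prop) (a : ℕ) (f : ℕ → V)
    (hf : ∀ i < a, Adj (f i) (f (i + 1))) (hmin : ∀ n < a, ¬ Walk Adj (f 0) (f a) n) :
    ∀ i, i + 2 ≤ a → f i ≠ f (i + 2) := by
  intro i hi he
  apply hmin (a - 2) (by omega)
  refine ⟨fun t => if t ≤ i then f t else f (t + 2), if_pos (Nat.zero_le _), ?_, ?_⟩
  · show (if a - 2 ≤ i then f (a - 2) else f (a - 2 + 2)) = f a
    have e1 : a - 2 + 2 = a := by omega
    by_cases h : a - 2 ≤ i
    · rw [if_pos h]
      have e2 : a - 2 = i := by omega
      rw [e2, he]
      congr 1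
      omega
    · rw [if_neg h, e1]
  · intro j hj
    show Adj (if j ≤ i then f j else f (j + 2)) (if j + 1 ≤ i then f (j + 1) else f (j + 1 + 2))
    by_cases h : j + 1 ≤ i
    · rw [if_pos h, if_pos (by omega)]
      exact hf j (by omega)
    · rw [if_neg h]
      by_cases h' : j ≤ i
      · have e3 : j = i := by omega
        subst e3
        rw [if_pos le_rfl, he]
        have := hf (j + 2) (by omega)
        have e4 : j + 2 + 1 = j + 1 + 2 := by omega
        rwa [e4] at this
      · rw [if_neg h']
        have := hf (j + 2) (by omega)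
        have e4 : j + 2 + 1 = j + 1 + 2 := by omega
        rwa [e4] at this

end JC1
end H467G
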