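import Pool.Agent.H467G.D
set_option autoImplicit false

namespace H467G
open Real NNReal Filter Topology
section walks
variable {V : Type*} {Adj : V → V → Prop}

theorem Walk.trans' {x y z : V} {m n : ℕ} (h1 : Walk Adj x y m) (h2 : Walk Adj y z n) :
    Walk Adj x z (m + n) := by
  obtain ⟨f, f0, fm, fa⟩ := h1
  obtain ⟨g, g0, gn, ga⟩ := h2
  refine ⟨fun i => if i ≤ m then f i else g (i - m), ?_, ?_, ?_⟩
  · simp [f0]
  · by_cases hn : n = 0
    · subst hn
      simp [fm, ← g0, gn]
    · have : ¬ (m + n ≤ m) := by omega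
      simp only [this, if_false]
      rw [← gn]
      congr 1
      omega
  · intro i hi
    by_cases h : i < m
    · have h1 : i ≤ m := h.le
      have h2 : i + 1 ≤ m := h
      simp only [h1, h2, if_true]
      exact fa i h
    · by_cases h3 : i = m
      · subst h3
        have h4 : ¬ (i + 1 ≤ i) := by omega
        simp only [le_refl, if_true, h4, if_false]
        rw [fm, ← g0]
        have := ga 0 (by omega)
        convert this using 2
        omega
      · have h4 : ¬ (i ≤ m) := by omega
        have h5 : ¬ (i + 1 ≤ m) := by omega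
        simp only [h4, h5, if_false]
        have := ga (i - m) (by omega)
        convert this using 2
        omega

theorem Walk.symm' (hs : ∀ x y, Adj x y → Adj y x) {x y : V} {n : ℕ} (h : Walk Adj x y n) :
    Walk Adj y x n := by
  obtain ⟨f, f0, fn, fa⟩ := h
  refine ⟨fun i => f (n - i), by simpa using fn, by simpa using f0, ?_⟩
  intro i hi
  have h1 := hs _ _ (fa (n - (i + 1)) (by omega))
  have h2 : n - (i + 1) + 1 = n - i := by omega
  rw [h2] at h1
  exact h1

theorem Walk.one' {x y : V} (h : Adj x y) : Walk Adj x y 1 := by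
  refine ⟨fun i => if i = 0 then x else y, by simp, by simp, ?_⟩
  intro i hi
  have : i = 0 := by omega
  subst this
  simpa using h

theorem walk_sub {f : ℕ → V} {a : ℕ} (fa : ∀ i < a, Adj (f i) (f (i + 1))) {i j : ℕ}
    (hij : i ≤ j) (hj : j ≤ a) : Walk Adj (f i) (f j) (j - i) := by
  refine ⟨fun l => f (i + l), by simp, by simp only []; congr 1; omega, ?_⟩
  intro l hl
  have := fa (i + l) (by omega)
  exact this

theorem min_nb' {f : ℕ → V} {a : ℕ} (fa : ∀ i < a, Adj (f i) (f (i + 1)))
    (hm : ∀ n < a, ¬ Walk Adj (f 0) (f a) n) {i : ℕ} (hi : i + 2 ≤ a) : f i ≠ f (i + 2) := by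
  intro h
  have h1 := walk_sub fa (Nat.zero_le i) (by omega : i ≤ a)
  have h2 := walk_sub fa hi (le_refl a)
  rw [← h] at h2
  exact hm _ (by omega) (h1.trans' h2)

theorem min_shift' {f : ℕ → V} {a : ℕ} (fa : ∀ i < a, Adj (f i) (f (i + 1))) (ha : 1 ≤ a)
    (hm : ∀ n < a, ¬ Walk Adj (f 0) (f a) n) :
    ∀ n < a - 1, ¬ Walk Adj (f 1) (f a) n := by
  intro n hn hw
  have h1 : Walk Adj (f 0) (f 1) 1 := Walk.one' (fa 0 (by omega))
  exact hm (1 + n) (by omega) (h1.trans' hw)

theorem min_trunc' {f : ℕ → V} {a : ℕ} (fa : ∀ i < a, Adj (f i) (f (i + 1))) (ha : 1 ≤ a)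
    (hm : ∀ n < a, ¬ Walk Adj (f 0) (f a) n) :
    ∀ n < a - 1, ¬ Walk Adj (f 0) (f (a - 1)) n := by
  intro n hn hw
  have h2 := fa (a - 1) (by omega)
  rw [Nat.sub_add_cancel ha] at h2
  exact hm (n + 1) (by omega) (hw.trans' (Walk.one' h2))

end walks

theorem tl_aux {V : Type*} (Adj : V → V → Prop) (hs : ∀ x y, Adj x y → Adj y x)
    (g : ℕ) (hB : Back Adj g) : ∀ (N a b c : ℕ) (f h k : ℕ → V), a + b + c ≤ N → a + b + c < g →
    (∀ i < a, Adj (f i) (f (i + 1))) → (∀ i < b, Adj (h i) (h (i + 1))) →
    (∀ i < c, Adj (k i) (k (i + 1))) → f a = h 0 → h b = k 0 → k c = f 0 →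
    (∀ n < a, ¬ Walk Adj (f 0) (f a) n) → (∀ n < b, ¬ Walk Adj (h 0) (h b) n) →
    (∀ n < c, ¬ Walk Adj (k 0) (k c) n) → ∀ j ≤ a,
      (∃ n, Walk Adj (h b) (f j) n ∧ n + j ≤ c) ∨
      (∃ n, Walk Adj (h b) (f j) n ∧ n + (a - j) ≤ b) := by
  intro N
  induction N with
  | zero =>
    intro a b c f h k hN _ fa ha ka e1 e2 e3 _ _ _ j hj
    obtain rfl : a = 0 := by omega
    obtain rfl : b = 0 := by omega
    obtain rfl : c = 0 := by omega
    obtain rfl : j = 0 := by omega
    left
    refine ⟨0, ?_, le_rfl⟩
    rw [e2, e3]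
    exact ⟨fun _ => f 0, rfl, rfl, fun i hi => absurd hi (by omega)⟩
  | succ N ih =>
    intro a b c f h k hN hg fa ha ka e1 e2 e3 mf mh mk' j hj
    by_cases hc : c = 0
    · subst hc
      right
      have hab : a ≤ b := by
        by_contra hcon
        push Not at hcon
        have h1 := (walk_sub ha (Nat.zero_le b) le_rfl).symm' hs
        rw [e2, e3, ← e1] at h1
        exact mf _ (by omega) h1
      refine ⟨j, ?_, by omega⟩
      rw [e2, e3]
      exact walk_sub fa (Nat.zero_le j) hj
    by_cases hb : b = 0
    · subst hb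
      left
      have hac : a ≤ c := by
        by_contra hcon
        push Not at hcon
        have h1 := (walk_sub ka (Nat.zero_le c) le_rfl).symm' hs
        rw [e3, ← e2, ← e1] at h1
        exact mf _ (by omega) h1
      refine ⟨a - j, ?_, by omega⟩
      rw [← e1]
      exact (walk_sub fa hj le_rfl).symm' hs
    by_cases ha0 : a = 0
    · subst ha0
      obtain rfl : j = 0 := by omega
      left
      refine ⟨c, ?_, by omega⟩
      rw [e2, ← e3]
      exact walk_sub ka (Nat.zero_le c) le_rfl
    -- the closed walk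
    set F : ℕ → V := fun i => if i ≤ a then f i else if i ≤ a + b then h (i - a) else k (i - a - b)
      with hF
    have F1 : ∀ i ≤ a, F i = f i := by
      intro i hi; simp only [hF, hi, if_true]
    have F2 : ∀ i ≤ b, F (a + i) = h i := by
      intro i hi
      by_cases h0 : i = 0
      · subst h0
        rw [add_zero, F1 a le_rfl, e1]
      · have h1 : ¬ (a + i ≤ a) := by omega
        have h2 : a + i ≤ a + b := by omega
        simp only [hF, h1, h2, if_true, if_false]
        congr 1; omega
    have F3 : ∀ i ≤ c, F (a + b + i) = k i := by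
      intro i hi
      by_cases h0 : i = 0
      · subst h0
        rw [add_zero, F2 b le_rfl, e2]
      · have h1 : ¬ (a + b + i ≤ a) := by omega
        have h2 : ¬ (a + b + i ≤ a + b) := by omega
        simp only [hF, h1, h2, if_false]
        congr 1; omega
    have Fadj : ∀ i < a + b + c, Adj (F i) (F (i + 1)) := by
      intro i hi
      by_cases h1 : i < a
      · rw [F1 i h1.le, F1 (i + 1) h1]; exact fa i h1
      · by_cases h2 : i < a + b
        · obtain ⟨l, rfl⟩ := Nat.exists_eq_add_of_le (not_lt.1 h1)
          rw [F2 l (by omega), add_assoc, F2 (l + 1) (by omega)]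
          exact ha l (by omega)
        · obtain ⟨l, rfl⟩ := Nat.exists_eq_add_of_le (not_lt.1 h2)
          rw [F3 l (by omega), add_assoc, F3 (l + 1) (by omega)]
          exact ka l (by omega)
    have Fcl : F (a + b + c) = F 0 := by
      rw [F3 c le_rfl, F1 0 (Nat.zero_le _), e3]
    obtain ⟨i, hi, hFi⟩ := hB (a + b + c) (by omega) hg F Fadj Fcl
    by_cases c1 : i + 2 ≤ a
    · exfalso
      rw [F1 i (by omega), F1 (i + 2) c1] at hFi
      exact min_nb' fa mf c1 hFi
    by_cases c2 : i + 1 = a
    · -- corner y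
      have h1 : F (i + 2) = h 1 := by
        have : i + 2 = a + 1 := by omega
        rw [this]; exact F2 1 (by omega)
      have hcor : f (a - 1) = h 1 := by
        have : a - 1 = i := by omega
        rw [this, ← F1 i (by omega), hFi, h1]
      by_cases hja : j = a
      · subst hja
        right
        refine ⟨b, ?_, by omega⟩
        rw [e1]
        exact (walk_sub ha (Nat.zero_le b) le_rfl).symm' hs
      · have := ih (a - 1) (b - 1) c f (fun l => h (l + 1)) k (by omega) (by omega)
          (fun l hl => fa l (by omega)) (fun l hl => ha (l + 1) (by omega)) ka hcor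
          (by rw [Nat.sub_add_cancel (by omega)]; exact e2) e3
          (min_trunc' fa (by omega) mf)
          (by
            have := min_shift' ha (by omega) mh
            simp only [zero_add]
            rw [Nat.sub_add_cancel (by omega)]
            exact this) mk' j (by omega)
        rw [Nat.sub_add_cancel (by omega)] at this
        rcases this with ⟨n, hn, hn2⟩ | ⟨n, hn, hn2⟩
        · exact Or.inl ⟨n, hn, hn2⟩
        · exact Or.inr ⟨n, hn, by omega⟩
    by_cases c3 : i + 2 ≤ a + b
    · exfalso
      obtain ⟨l, rfl⟩ := Nat.exists_eq_add_of_le (by omega : a ≤ i)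
      rw [F2 l (by omega), add_assoc, F2 (l + 2) (by omega)] at hFi
      exact min_nb' ha mh (by omega) hFi
    by_cases c4 : i + 1 = a + b
    · -- corner w
      have h1 : F (i + 2) = k 1 := by
        have : i + 2 = a + b + 1 := by omega
        rw [this]; exact F3 1 (by omega)
      have h2 : F i = h (b - 1) := by
        have : i = a + (b - 1) := by omega
        rw [this]; exact F2 (b - 1) (by omega)
      have hcor : h (b - 1) = k 1 := by rw [← h2, hFi, h1]
      have hedge : Walk Adj (h b) (h (b - 1)) 1 := by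
        have h3 := ha (b - 1) (by omega)
        rw [Nat.sub_add_cancel (by omega)] at h3
        exact Walk.one' (hs _ _ h3)
      have := ih a (b - 1) (c - 1) f h (fun l => k (l + 1)) (by omega) (by omega) fa
        (fun l hl => ha l (by omega)) (fun l hl => ka (l + 1) (by omega)) e1 hcor
        (by rw [Nat.sub_add_cancel (by omega)]; exact e3) mf
        (min_trunc' ha (by omega) mh)
        (by
          have := min_shift' ka (by omega) mk'
          simp only [zero_add]
          rw [Nat.sub_add_cancel (by omega)]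
          exact this) j hj
      rcases this with ⟨n, hn, hn2⟩ | ⟨n, hn, hn2⟩
      · exact Or.inl ⟨1 + n, hedge.trans' hn, by omega⟩
      · exact Or.inr ⟨1 + n, hedge.trans' hn, by omega⟩
    · exfalso
      obtain ⟨l, rfl⟩ := Nat.exists_eq_add_of_le (by omega : a + b ≤ i)
      rw [F3 l (by omega), add_assoc, F3 (l + 2) (by omega)] at hFi
      exact min_nb' ka mk' (by omega) hFi

/-- geodesic triangles shorter than the girth are tripods -/
theorem tl {V : Type*} (Adj : V → V → Prop) (hs : ∀ x y, Adj x y → Adj y x)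
    (g : ℕ) (hB : Back Adj g) : TL Adj g := by
  intro a b c f h k hg fa ha ka e1 e2 e3 mf mh mk' j hj
  exact tl_aux Adj hs g hB (a + b + c) a b c f h k le_rfl hg fa ha ka e1 e2 e3 mf mh mk' j hj

end H467G
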