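import Pool.Agent.H467G.D
set_option autoImplicit false

namespace H467G
namespace JC3
open Real NNReal Filter Topology
theorem walk_refl {V : Type*} (Adj : V → V → Prop) (x : V) : Walk Adj x x 0 :=
  ⟨fun _ => x, rfl, rfl, fun i hi => absurd hi (Nat.not_lt_zero i)⟩

theorem walk_symm {V : Type*} {Adj : V → V → Prop} (hs : ∀ x y, Adj x y → Adj y x) {x y : V} {n : ℕ}
    (h : Walk Adj x y n) : Walk Adj y x n := by
  obtain ⟨f, h0, h1, h2⟩ := h
  refine ⟨fun i => f (n - i), by simpa using h1, by simpa using h0, fun i hi => ?_⟩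
  have h3 := h2 (n - (i + 1)) (by omega)
  have e : n - (i + 1) + 1 = n - i := by omega
  rw [e] at h3
  exact hs _ _ h3

theorem walk_trans {V : Type*} {Adj : V → V → Prop} {x y z : V} {n m : ℕ}
    (h : Walk Adj x y n) (h' : Walk Adj y z m) : Walk Adj x z (n + m) := by
  obtain ⟨f, h0, h1, h2⟩ := h
  obtain ⟨k, k0, k1, k2⟩ := h'
  refine ⟨fun i => if i ≤ n then f i else k (i - n), by simpa using h0, ?_, fun i hi => ?_⟩
  · rcases Nat.eq_zero_or_pos m with rfl | hm
    · simp only [add_zero, le_refl, if_true]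
      rw [h1, ← k0, k1]
    · simp only
      rw [if_neg (by omega), ← k1]
      congr 1; omega
  · simp only
    by_cases hin : i + 1 ≤ n
    · rw [if_pos (by omega), if_pos hin]
      exact h2 i (by omega)
    · rw [if_neg hin]
      by_cases hi2 : i ≤ n
      · have e : i = n := by omega
        subst e
        rw [if_pos le_rfl, h1, ← k0]
        have h3 := k2 0 (by omega)
        have e2 : i + 1 - i = 0 + 1 := by omega
        rw [e2]; exact h3
      · rw [if_neg hi2]
        have h3 := k2 (i - n) (by omega)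
        have e2 : i - n + 1 = i + 1 - n := by omega
        rw [e2] at h3; exact h3

theorem dd_le_M {V : Type*} (Adj : V → V → Prop) (M : ℕ) (x y : V) : dd Adj M x y ≤ M :=
  Nat.sInf_le (Or.inl rfl)

theorem dd_le_walk {V : Type*} {Adj : V → V → Prop} {M : ℕ} {x y : V} {n : ℕ}
    (h : Walk Adj x y n) : dd Adj M x y ≤ n :=
  Nat.sInf_le (Or.inr h)

theorem dd_mem {V : Type*} (Adj : V → V → Prop) (M : ℕ) (x y : V) :
    dd Adj M x y = M ∨ Walk Adj x y (dd Adj M x y) :=
  Nat.sInf_mem (s := {n | n = M ∨ Walk Adj x y n}) ⟨M, Or.inl rfl⟩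

theorem walk_dd {V : Type*} {Adj : V → V → Prop} {M : ℕ} {x y : V} (h : dd Adj M x y < M) :
    Walk Adj x y (dd Adj M x y) :=
  (dd_mem Adj M x y).resolve_left h.ne

theorem dd_symm_le {V : Type*} {Adj : V → V → Prop} (hs : ∀ x y, Adj x y → Adj y x) (M : ℕ)
    (x y : V) : dd Adj M x y ≤ dd Adj M y x := by
  rcases dd_mem Adj M y x with h | h
  · rw [h]; exact dd_le_M _ _ _ _
  · exact dd_le_walk (walk_symm hs h)

theorem dd_tri {V : Type*} (Adj : V → V → Prop) (M : ℕ) (x y z : V) :
    dd Adj M x z ≤ dd Adj M x y + dd Adj M y z := by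
  rcases dd_mem Adj M x y with h | h
  · rw [h]; exact (dd_le_M _ _ _ _).trans (Nat.le_add_right _ _)
  · rcases dd_mem Adj M y z with h' | h'
    · rw [h']; exact (dd_le_M _ _ _ _).trans (Nat.le_add_left _ _)
    · exact dd_le_walk (walk_trans h h')

/-- the truncated distance of a graph whose short geodesic triangles are tripods -/
theorem disc {V : Type*} (Adj : V → V → Prop) (hs : ∀ x y, Adj x y → Adj y x)
    (M : ℕ) (hT : TL Adj (2 * M)) :
    (∀ x, dd Adj M x x = 0) ∧ (∀ x y, dd Adj M x y = dd Adj M y x) ∧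
    (∀ x y z, dd Adj M x z ≤ dd Adj M x y + dd Adj M y z) ∧ (∀ x y, dd Adj M x y ≤ M) ∧
    ∀ x y, dd Adj M x y < M → ∀ j ≤ dd Adj M x y, ∃ p, dd Adj M x p = j ∧
      dd Adj M p y + j = dd Adj M x y ∧
      ∀ w, dd Adj M w p + j ≤ dd Adj M w x ∨
        dd Adj M w p + (dd Adj M x y - j) ≤ dd Adj M w y ∨
        2 * M ≤ dd Adj M x y + dd Adj M w x + dd Adj M w y := by
  have hsymm : ∀ x y, dd Adj M x y = dd Adj M y x := fun x y =>
    le_antisymm (dd_symm_le hs M x y) (dd_symm_le hs M y x)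
  refine ⟨fun x => Nat.le_zero.1 (dd_le_walk (walk_refl Adj x)), hsymm, dd_tri Adj M,
    dd_le_M Adj M, ?_⟩
  intro x y hxy j hj
  obtain ⟨f, f0, f1, f2⟩ := walk_dd hxy
  have w1 : Walk Adj x (f j) j := ⟨f, f0, rfl, fun i hi => f2 i (by omega)⟩
  have w2 : Walk Adj (f j) y (dd Adj M x y - j) := by
    refine ⟨fun i => f (j + i), rfl, ?_, fun i hi => ?_⟩
    · simp only
      rw [Nat.add_sub_cancel' hj]; exact f1
    · exact f2 (j + i) (by omega)
  have d1 : dd Adj M x (f j) ≤ j := dd_le_walk w1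
  have d2 : dd Adj M (f j) y ≤ dd Adj M x y - j := dd_le_walk w2
  have d3 := dd_tri Adj M x (f j) y
  refine ⟨f j, by omega, by omega, fun w => ?_⟩
  by_cases hbig : 2 * M ≤ dd Adj M x y + dd Adj M w x + dd Adj M w y
  · exact Or.inr (Or.inr hbig)
  push Not at hbig
  have t1 := dd_tri Adj M w y x
  have t2 := dd_tri Adj M w x y
  have s1 := hsymm y x
  have m1 := dd_le_M Adj M w x
  have m2 := dd_le_M Adj M w y
  have hc : dd Adj M w x < M := by omega
  have hb : dd Adj M w y < M := by omega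
  have hb' : dd Adj M y w < M := by rw [hsymm]; exact hb
  obtain ⟨h, h0, h1, h2⟩ := walk_dd hb'
  obtain ⟨k, k0, k1, k2⟩ := walk_dd hc
  have s2 := hsymm y w
  have key := hT (dd Adj M x y) (dd Adj M y w) (dd Adj M w x) f h k (by omega) f2 h2 k2
    (by rw [f1, h0]) (by rw [h1, k0]) (by rw [k1, f0])
    (fun n hn hw => by
      rw [f0, f1] at hw
      have := dd_le_walk (M := M) hw
      omega)
    (fun n hn hw => by
      rw [h0, h1] at hw
      have := dd_le_walk (M := M) hw
      omega)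
    (fun n hn hw => by
      rw [k0, k1] at hw
      have := dd_le_walk (M := M) hw
      omega) j hj
  rw [h1] at key
  rcases key with ⟨n, hn, hn2⟩ | ⟨n, hn, hn2⟩
  · left
    have := dd_le_walk (M := M) hn
    omega
  · right; left
    have := dd_le_walk (M := M) hn
    omega

end JC3
end H467G
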