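import Pool.Agent.H467G.D
set_option autoImplicit false

namespace H467G
open Real NNReal Filter Topology
/-- edges of the ear `j` -/
def Lab (E : ℕ → Prop) (par : ℕ → Bool → ℕ) (m : ℕ → ℕ) (j : ℕ) (x y : ℕ × Bool × ℕ) : Prop :=
  ∃ b s, E j ∧ s < m j ∧ ((x = P par m j b s ∧ y = P par m j b (s + 1)) ∨
    (y = P par m j b s ∧ x = P par m j b (s + 1)))

theorem Lab.symm {E : ℕ → Prop} {par : ℕ → Bool → ℕ} {m : ℕ → ℕ} {j : ℕ} {x y : ℕ × Bool × ℕ}
    (h : Lab E par m j x y) : Lab E par m j y x := by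
  obtain ⟨b, s, h1, h2, h3⟩ := h
  exact ⟨b, s, h1, h2, h3.symm⟩

theorem EAdj.symm {E : ℕ → Prop} {par : ℕ → Bool → ℕ} {m : ℕ → ℕ} {x y : ℕ × Bool × ℕ}
    (h : EAdj E par m x y) : EAdj E par m y x := by
  obtain ⟨i, b, s, h1, h2, h3⟩ := h
  exact ⟨i, b, s, h1, h2, h3.symm⟩

/-- the ear `I` -/
def ee (par : ℕ → Bool → ℕ) (m : ℕ → ℕ) (I t : ℕ) : ℕ × Bool × ℕ :=
  if t ≤ m I then P par m I false (m I - t) else P par m I true (t - m I)

theorem P_zero (par : ℕ → Bool → ℕ) (m : ℕ → ℕ) (i : ℕ) (b : Bool) :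
    P par m i b 0 = (i, false, 0) := by simp [P]

theorem P_m {par : ℕ → Bool → ℕ} {m : ℕ → ℕ} {i : ℕ} (h : 1 ≤ m i) (b : Bool) :
    P par m i b (m i) = (par i b, false, 0) := by
  unfold P
  rw [if_neg (by omega), if_pos rfl]

theorem P_int {par : ℕ → Bool → ℕ} {m : ℕ → ℕ} {i s : ℕ} (b : Bool) (h0 : s ≠ 0) (h1 : s ≠ m i) :
    P par m i b s = (i, b, s) := by
  unfold P
  rw [if_neg h0, if_neg h1]

theorem ee_false {par : ℕ → Bool → ℕ} {m : ℕ → ℕ} {I s : ℕ} (hs : s ≤ m I) :
    P par m I false s = ee par m I (m I - s) := by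
  unfold ee
  rw [if_pos (by omega)]
  congr 1
  omega

theorem ee_true {par : ℕ → Bool → ℕ} {m : ℕ → ℕ} {I s : ℕ} (hs : s ≤ m I) :
    P par m I true s = ee par m I (m I + s) := by
  unfold ee
  by_cases h : s = 0
  · subst h
    rw [if_pos (by omega), P_zero]
    simp [P]
  · rw [if_neg (by omega)]
    congr 1
    omega

theorem ee_int1 {par : ℕ → Bool → ℕ} {m : ℕ → ℕ} {I t : ℕ} (h0 : 0 < t) (h1 : t < m I) :
    ee par m I t = (I, false, m I - t) := by
  unfold ee
  rw [if_pos h1.le, P_int _ (by omega) (by omega)]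

theorem ee_mid {par : ℕ → Bool → ℕ} {m : ℕ → ℕ} {I : ℕ} :
    ee par m I (m I) = (I, false, 0) := by
  unfold ee
  rw [if_pos le_rfl, Nat.sub_self, P_zero]

theorem ee_int2 {par : ℕ → Bool → ℕ} {m : ℕ → ℕ} {I t : ℕ} (h0 : m I < t) (h1 : t < 2 * m I) :
    ee par m I t = (I, true, t - m I) := by
  unfold ee
  rw [if_neg (by omega), P_int _ (by omega) (by omega)]

theorem P_eq_ee {par : ℕ → Bool → ℕ} {m : ℕ → ℕ} {I j s t : ℕ} {b : Bool} (hj : j ≤ I)
    (hp : par j b < j) (h0 : 0 < t) (h1 : t < 2 * m I) (hs : s ≤ m j) (hm : 1 ≤ m j)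
    (h : P par m j b s = ee par m I t) :
    j = I ∧ (b = false → t + s = m I) ∧ (b = true → t = m I + s) := by
  rcases lt_trichotomy t (m I) with ht | ht | ht
  · rw [ee_int1 h0 ht] at h
    by_cases hs0 : s = 0
    · subst hs0
      rw [P_zero] at h
      simp only [Prod.mk.injEq] at h
      omega
    · by_cases hsm : s = m j
      · subst hsm
        rw [P_m hm] at h
        simp only [Prod.mk.injEq] at h
        omega
      · rw [P_int _ hs0 hsm] at h
        simp only [Prod.mk.injEq] at h
        obtain ⟨rfl, rfl, h3⟩ := h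
        refine ⟨rfl, fun _ => by omega, fun h => absurd h (by simp)⟩
  · rw [ht, ee_mid] at h
    by_cases hs0 : s = 0
    · subst hs0
      rw [P_zero] at h
      simp only [Prod.mk.injEq] at h
      refine ⟨h.1, fun _ => by omega, fun _ => by omega⟩
    · by_cases hsm : s = m j
      · subst hsm
        rw [P_m hm] at h
        simp only [Prod.mk.injEq] at h
        omega
      · rw [P_int _ hs0 hsm] at h
        simp only [Prod.mk.injEq] at h
        exact absurd h.2.2 hs0
  · rw [ee_int2 ht h1] at h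
    by_cases hs0 : s = 0
    · subst hs0
      rw [P_zero] at h
      simp only [Prod.mk.injEq] at h
      exact absurd h.2.1 (by simp)
    · by_cases hsm : s = m j
      · subst hsm
        rw [P_m hm] at h
        simp only [Prod.mk.injEq] at h
        exact absurd h.2.1 (by simp)
      · rw [P_int _ hs0 hsm] at h
        simp only [Prod.mk.injEq] at h
        obtain ⟨rfl, rfl, h3⟩ := h
        refine ⟨rfl, fun h => absurd h (by simp), fun _ => by omega⟩

/-- edges at the interior of the ear -/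
theorem Lab_int {E : ℕ → Prop} {par : ℕ → Bool → ℕ} {m : ℕ → ℕ} {I j t : ℕ} {y : ℕ × Bool × ℕ}
    (hpar : ∀ i, E i → ∀ b, par i b < i) (hm : ∀ i, E i → 1 ≤ m i)
    (hj : j ≤ I) (h0 : 0 < t) (h1 : t < 2 * m I) (h : Lab E par m j (ee par m I t) y) :
    y = ee par m I (t - 1) ∨ y = ee par m I (t + 1) := by
  obtain ⟨b, s, hE, hs, h3 | h3⟩ := h
  · obtain ⟨h4, h5⟩ := h3
    obtain ⟨rfl, h6, h7⟩ := P_eq_ee hj (hpar j hE b) h0 h1 hs.le (hm j hE) h4.symm
    cases b with
    | false =>
      left
      rw [h5, ee_false (by omega)]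
      congr 1
      have := h6 rfl
      omega
    | true =>
      right
      rw [h5, ee_true (by omega)]
      congr 1
      have := h7 rfl
      omega
  · obtain ⟨h4, h5⟩ := h3
    obtain ⟨rfl, h6, h7⟩ := P_eq_ee hj (hpar j hE b) h0 h1 hs (hm j hE) h5.symm
    cases b with
    | false =>
      right
      rw [h4, ee_false (by omega)]
      congr 1
      have := h6 rfl
      omega
    | true =>
      left
      rw [h4, ee_true (by omega)]
      congr 1
      have := h7 rfl
      omega

/-- edges of the ear -/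
theorem Lab_top {E : ℕ → Prop} {par : ℕ → Bool → ℕ} {m : ℕ → ℕ} {I : ℕ} {x y : ℕ × Bool × ℕ}
    (h : Lab E par m I x y) : ∃ t, t < 2 * m I ∧
      ((x = ee par m I t ∧ y = ee par m I (t + 1)) ∨
        (y = ee par m I t ∧ x = ee par m I (t + 1))) := by
  obtain ⟨b, s, hE, hs, h3⟩ := h
  cases b with
  | false =>
    refine ⟨m I - s - 1, by omega, ?_⟩
    rw [ee_false (by omega), ee_false (by omega)] at h3
    have e1 : m I - s - 1 + 1 = m I - s := by omega
    have e2 : m I - (s + 1) = m I - s - 1 := by omega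
    rw [e2] at h3
    rw [e1]
    rcases h3 with h3 | h3
    · exact Or.inr ⟨h3.2, h3.1⟩
    · exact Or.inl ⟨h3.2, h3.1⟩
  | true =>
    refine ⟨m I + s, by omega, ?_⟩
    rw [ee_true (by omega), ee_true (by omega)] at h3
    exact h3

/-- the cycle runs through the ear -/
theorem core {E : ℕ → Prop} {par : ℕ → Bool → ℕ} {m : ℕ → ℕ} {g n I : ℕ}
    (hpar : ∀ i, E i → ∀ b, par i b < i) (hm : ∀ i, E i → 1 ≤ m i)
    (hg : ∀ i, E i → ∀ l, Walk (EAdj (fun j => E j ∧ j < i) par m) (par i false, false, 0)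
      (par i true, false, 0) l → g ≤ l + 2 * m i)
    (hI : E I) {f : ℤ → ℕ × Bool × ℕ} (h3 : 3 ≤ n) (hper : ∀ i, f (i + n) = f i)
    (hinj : ∀ i j, f i = f j → (n : ℤ) ∣ i - j)
    (hle : ∀ t, ∃ j ≤ I, Lab E par m j (f t) (f (t + 1))) {u : ℤ} {t0 : ℕ}
    (ht0 : t0 < 2 * m I) (h0 : f u = ee par m I t0) (h1 : f (u + 1) = ee par m I (t0 + 1)) :
    g ≤ n := by
  have hmI := hm I hI
  have hne2 : ∀ i : ℤ, f (i + 2) ≠ f i := by
    intro i h
    have h4 := hinj _ _ h
    have h5 : (n : ℤ) ∣ 2 := by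
      have e1 : i + 2 - i = 2 := by ring
      rwa [e1] at h4
    have h6 := Int.le_of_dvd (by norm_num) h5
    omega
  -- forward
  have hfwd : ∀ k : ℕ, (t0 + k ≤ 2 * m I → f (u + k) = ee par m I (t0 + k)) ∧
      (t0 + k + 1 ≤ 2 * m I → f (u + k + 1) = ee par m I (t0 + k + 1)) := by
    intro k
    induction k with
    | zero => exact ⟨fun _ => by simpa using h0, fun _ => by simpa using h1⟩
    | succ k ih =>
      have e1 : u + ((k + 1 : ℕ) : ℤ) = u + k + 1 := by push_cast; ring
      have e2 : t0 + (k + 1) = t0 + k + 1 := by ring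
      rw [e1, e2]
      refine ⟨ih.2, fun h => ?_⟩
      have h5 := ih.1 (by omega)
      have h6 := ih.2 (by omega)
      obtain ⟨j, hj, hL⟩ := hle (u + k + 1)
      rw [h6] at hL
      rcases Lab_int hpar hm hj (by omega) (by omega) hL with h7 | h7
      · exfalso
        apply hne2 (u + k)
        rw [h5, show u + k + 2 = u + k + 1 + 1 by ring, h7]
        rfl
      · exact h7
  -- backward
  have hbwd : ∀ k : ℕ, (k ≤ t0 + 1 → f (u + 1 - k) = ee par m I (t0 + 1 - k)) ∧
      (k + 1 ≤ t0 + 1 → f (u + 1 - k - 1) = ee par m I (t0 + 1 - k - 1)) := by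
    intro k
    induction k with
    | zero => exact ⟨fun _ => by simpa using h1, fun _ => by simpa using h0⟩
    | succ k ih =>
      have e1 : u + 1 - ((k + 1 : ℕ) : ℤ) = u + 1 - k - 1 := by push_cast; ring
      have e2 : t0 + 1 - (k + 1) = t0 + 1 - k - 1 := by omega
      rw [e1, e2]
      refine ⟨ih.2, fun h => ?_⟩
      have h5 := ih.1 (by omega)
      have h6 := ih.2 (by omega)
      obtain ⟨j, hj, hL⟩ := hle (u + 1 - k - 1 - 1)
      rw [sub_add_cancel, h6] at hL
      rcases Lab_int hpar hm hj (by omega) (by omega) hL.symm with h7 | h7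
      · exact h7
      · exfalso
        apply hne2 (u + 1 - k - 1 - 1)
        rw [show u + 1 - (k : ℤ) - 1 - 1 + 2 = u + 1 - k by ring, h5, h7]
        congr 1
        omega
  -- translated cycle
  have hF : ∀ k : ℕ, k ≤ 2 * m I → f (u - t0 + k) = ee par m I k := by
    intro k hk
    rcases le_total k t0 with h | h
    · have h5 := (hbwd (t0 + 1 - k)).1 (by omega)
      have e1 : u + 1 - ((t0 + 1 - k : ℕ) : ℤ) = u - t0 + k := by
        rw [Nat.cast_sub (by omega)]
        push_cast
        ring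
      have e2 : t0 + 1 - (t0 + 1 - k) = k := by omega
      rw [e1, e2] at h5
      exact h5
    · have h5 := (hfwd (k - t0)).1 (by omega)
      have e1 : u + ((k - t0 : ℕ) : ℤ) = u - t0 + k := by
        rw [Nat.cast_sub h]
        ring
      have e2 : t0 + (k - t0) = k := by omega
      rw [e1, e2] at h5
      exact h5
  set F : ℤ → ℕ × Bool × ℕ := fun k => f (u - t0 + k) with hFdef
  have hF' : ∀ k : ℕ, k ≤ 2 * m I → F k = ee par m I k := hF
  have hFper : F n = F 0 := by
    simp only [hFdef]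
    rw [hper, add_zero]
  have hFinj : ∀ i j, F i = F j → (n : ℤ) ∣ i - j := by
    intro i j h
    have h5 := hinj _ _ h
    have e1 : u - t0 + i - (u - t0 + j) = i - j := by ring
    rwa [e1] at h5
  have hFle : ∀ t, ∃ j ≤ I, Lab E par m j (F t) (F (t + 1)) := by
    intro t
    have h5 := hle (u - t0 + t)
    rw [add_assoc] at h5
    exact h5
  have he0 : ee par m I 0 = (par I false, false, 0) := by
    have h5 := ee_false (par := par) (m := m) (I := I) (s := m I) le_rfl
    rw [Nat.sub_self] at h5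
    rw [← h5, P_m hmI]
  have he2 : ee par m I (2 * m I) = (par I true, false, 0) := by
    have h5 := ee_true (par := par) (m := m) (I := I) (s := m I) le_rfl
    rw [← two_mul] at h5
    rw [← h5, P_m hmI]
  have hpI := hpar I hI false
  -- the cycle is long
  have h2m : 2 * m I ≤ n := by
    by_contra hc
    push Not at hc
    have h5 := hF' n hc.le
    rw [hFper] at h5
    have h6 := hF' 0 (by omega)
    rw [Nat.cast_zero] at h6
    rw [h6, he0] at h5
    rcases lt_trichotomy n (m I) with ht | ht | ht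
    · rw [ee_int1 (by omega) ht] at h5
      simp only [Prod.mk.injEq] at h5
      omega
    · rw [ht, ee_mid] at h5
      simp only [Prod.mk.injEq] at h5
      omega
    · rw [ee_int2 ht hc] at h5
      simp only [Prod.mk.injEq] at h5
      omega
  -- the remaining edges
  have hrest : ∀ k : ℕ, 2 * m I ≤ k → k < n →
      EAdj (fun j => E j ∧ j < I) par m (F k) (F (k + 1)) := by
    intro k hk1 hk2
    obtain ⟨j, hj, hL⟩ := hFle k
    have hjI : j ≠ I := by
      rintro rfl
      obtain ⟨t, ht, h5⟩ := Lab_top hL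
      -- one end is interior
      have h6 : ∃ t' : ℕ, 0 < t' ∧ t' < 2 * m j ∧ (F k = ee par m j t' ∨ F (k + 1) = ee par m j t') := by
        by_cases ht' : t = 0
        · refine ⟨1, by omega, by omega, ?_⟩
          subst ht'
          rcases h5 with h5 | h5
          · right; simpa using h5.2
          · left; simpa using h5.2
        · refine ⟨t, by omega, by omega, ?_⟩
          rcases h5 with h5 | h5
          · left; exact h5.1
          · right; exact h5.1
      obtain ⟨t', h7, h8, h9⟩ := h6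
      rw [← hF' t' h8.le] at h9
      rcases h9 with h9 | h9
      · have h10 := hFinj _ _ h9
        have h11 := Int.le_of_dvd (by omega) h10
        omega
      · have h10 := hFinj _ _ h9
        have h11 := Int.le_of_dvd (by omega) h10
        omega
    obtain ⟨b, s, hE, hs, h5⟩ := hL
    exact ⟨j, b, s, ⟨hE, by omega⟩, hs, h5⟩
  have hW : Walk (EAdj (fun j => E j ∧ j < I) par m) (par I false, false, 0)
      (par I true, false, 0) (n - 2 * m I) := by
    refine ⟨fun i => F ((n - i : ℕ) : ℤ), ?_, ?_, ?_⟩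
    · simp only [Nat.sub_zero]
      rw [hFper]
      have h6 := hF' 0 (by omega)
      rw [Nat.cast_zero] at h6
      rw [h6, he0]
    · simp only
      rw [show n - (n - 2 * m I) = 2 * m I by omega, hF' _ le_rfl, he2]
    · intro i hi
      have h5 := hrest (n - (i + 1)) (by omega) (by omega)
      have e1 : ((n - (i + 1) : ℕ) : ℤ) + 1 = ((n - i : ℕ) : ℤ) := by omega
      rw [e1] at h5
      exact h5.symm
  have h5 := hg I hI _ hW
  omega

/-- a graph built by adding ears has no short cycle -/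
theorem ear (E : ℕ → Prop) (par : ℕ → Bool → ℕ) (m : ℕ → ℕ) (g : ℕ)
    (hpar : ∀ i, E i → ∀ b, par i b < i) (hm : ∀ i, E i → 1 ≤ m i)
    (hg : ∀ i, E i → ∀ l, Walk (EAdj (fun j => E j ∧ j < i) par m) (par i false, false, 0)
      (par i true, false, 0) l → g ≤ l + 2 * m i) :
    NoCyc (EAdj E par m) g := by
  rintro n hn f ⟨h3, hper, hinj, hadj⟩
  have hlab : ∀ t : ℤ, ∃ j, Lab E par m j (f t) (f (t + 1)) := by
    intro t
    obtain ⟨i, b, s, h⟩ := hadj t
    exact ⟨i, b, s, h⟩
  choose lab hlab using hlab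
  obtain ⟨tm, htm, hmax⟩ := Finset.exists_max_image (Finset.range n) (fun t : ℕ => lab t)
    ⟨0, Finset.mem_range.2 (by omega)⟩
  set I := lab tm with hIdef
  have hP : Function.Periodic f (n : ℤ) := hper
  have hle : ∀ t, ∃ j ≤ I, Lab E par m j (f t) (f (t + 1)) := by
    intro t
    have hn0 : (n : ℤ) ≠ 0 := by omega
    have hr0 := Int.emod_nonneg t hn0
    have hr1 := Int.emod_lt_of_pos t (show (0 : ℤ) < n by omega)
    set r := (t % n).toNat with hr
    have hrt : (r : ℤ) = t % n := Int.toNat_of_nonneg hr0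
    have e1 : f t = f r := by
      have h4 := (hP.int_mul (t / n)) (r : ℤ)
      rw [← h4]
      congr 1
      rw [hrt]
      have := Int.emod_add_mul_ediv t n
      simp only [Int.cast_id]
      linarith [mul_comm (n : ℤ) (t / n)]
    have e2 : f (t + 1) = f (r + 1) := by
      have h4 := (hP.int_mul (t / n)) ((r : ℤ) + 1)
      rw [← h4]
      congr 1
      rw [hrt]
      have := Int.emod_add_mul_ediv t n
      simp only [Int.cast_id]
      linarith [mul_comm (n : ℤ) (t / n)]
    refine ⟨lab r, hmax r (Finset.mem_range.2 (by omega)), ?_⟩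
    rw [e1, e2]
    exact hlab r
  have hItop := hlab (tm : ℤ)
  have hEI : E I := by
    obtain ⟨b, s, hE, _⟩ := hItop
    exact hE
  obtain ⟨t0, ht0, h5⟩ := Lab_top hItop
  have hfin : g ≤ n := by
    rcases h5 with ⟨h5, h6⟩ | ⟨h5, h6⟩
    · exact core hpar hm hg hEI h3 hper hinj hle ht0 h5 h6
    · refine core (f := fun t => f (-t)) (u := -(tm : ℤ) - 1) hpar hm hg hEI h3 ?_ ?_ ?_ ht0 ?_ ?_
      · intro i
        have := hper (-(i + n))
        rw [← this]
        congr 1
        ring
      · intro i j h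
        have h7 := hinj _ _ h
        have e1 : -i - -j = -(i - j) := by ring
        rw [e1, dvd_neg] at h7
        exact h7
      · intro t
        obtain ⟨j, hj, hL⟩ := hle (-(t + 1))
        refine ⟨j, hj, ?_⟩
        have e1 : -(t + 1) + 1 = -t := by ring
        rw [e1] at hL
        exact hL.symm
      · have e1 : -(-(tm : ℤ) - 1) = tm + 1 := by ring
        rw [e1]
        exact h5
      · have e1 : -(-(tm : ℤ) - 1 + 1) = tm := by ring
        rw [e1]
        exact h6
  omega

end H467G
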