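import Pool.Agent.H467G.D
set_option autoImplicit false

namespace H467G
namespace JF
open Real NNReal Filter Topology
/-- pairs of a vertex and one of its legs -/
def F_pairs (a N : ℕ) : Finset (ℕ × Bool) := Finset.Ico a N ×ˢ Finset.univ

/-- number of children -/
def F_cnt (a N : ℕ) (par : ℕ → Bool → ℕ) (v : ℕ) : ℕ :=
  ((F_pairs a N).filter (fun x => par x.1 x.2 = v)).card

/-- neighbours -/
def F_nb (a N : ℕ) (par : ℕ → Bool → ℕ) (v : ℕ) : Finset ℕ :=
  {par v false, par v true} ∪ ((F_pairs a N).filter (fun x => par x.1 x.2 = v)).image Prod.fst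

/-- balls -/
def F_ball (a N : ℕ) (par : ℕ → Bool → ℕ) (p : ℕ) : ℕ → Finset ℕ
  | 0 => {p}
  | r + 1 => F_ball a N par p r ∪ (F_ball a N par p r).biUnion (F_nb a N par)

lemma F_mem_pairs (a N : ℕ) (x : ℕ × Bool) : x ∈ F_pairs a N ↔ a ≤ x.1 ∧ x.1 < N := by
  unfold F_pairs
  simp

lemma F_nb_card (a N : ℕ) (par : ℕ → Bool → ℕ) (hc : ∀ v, F_cnt a N par v ≤ 6) (v : ℕ) :
    (F_nb a N par v).card ≤ 8 := by
  unfold F_nb
  refine (Finset.card_union_le _ _).trans ?_
  have h1 : ({par v false, par v true} : Finset ℕ).card ≤ 2 := Finset.card_le_two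
  have h2 := (Finset.card_image_le (f := Prod.fst)
    (s := (F_pairs a N).filter (fun x => par x.1 x.2 = v))).trans (hc v)
  omega

lemma F_ball_card (a N : ℕ) (par : ℕ → Bool → ℕ) (hc : ∀ v, F_cnt a N par v ≤ 6) (p r : ℕ) :
    (F_ball a N par p r).card ≤ 9 ^ r := by
  induction r with
  | zero => simp [F_ball]
  | succ r ih =>
    rw [F_ball]
    refine (Finset.card_union_le _ _).trans ?_
    have h1 : ((F_ball a N par p r).biUnion (F_nb a N par)).card ≤
        (F_ball a N par p r).card * 8 :=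
      Finset.card_biUnion_le_card_mul _ _ _ fun v _ => F_nb_card a N par hc v
    rw [pow_succ]
    omega

lemma F_ball_mono (a N : ℕ) (par : ℕ → Bool → ℕ) (p : ℕ) {r s : ℕ} (h : r ≤ s) :
    F_ball a N par p r ⊆ F_ball a N par p s := by
  induction s with
  | zero =>
    have : r = 0 := by omega
    rw [this]
  | succ s ih =>
    by_cases hr : r = s + 1
    · rw [hr]
    · have h1 := ih (by omega)
      rw [F_ball]
      exact h1.trans Finset.subset_union_left

lemma F_adj_nb (a N : ℕ) (par : ℕ → Bool → ℕ) (x y : ℕ)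
    (h : CAdj (fun j => a ≤ j ∧ j < N) par x y) : y ∈ F_nb a N par x := by
  obtain ⟨i, b, hi, h | h⟩ := h
  · obtain ⟨rfl, rfl⟩ := h
    unfold F_nb
    rw [Finset.mem_union]
    left
    cases b <;> simp
  · obtain ⟨rfl, rfl⟩ := h
    unfold F_nb
    rw [Finset.mem_union]
    right
    rw [Finset.mem_image]
    refine ⟨(y, b), ?_, rfl⟩
    rw [Finset.mem_filter, F_mem_pairs]
    exact ⟨hi, rfl⟩

lemma F_walk_ball (a N : ℕ) (par : ℕ → Bool → ℕ) (p q n : ℕ)
    (h : Walk (CAdj (fun j => a ≤ j ∧ j < N) par) p q n) : q ∈ F_ball a N par p n := by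
  obtain ⟨f, hf0, hfn, hf⟩ := h
  have h1 : ∀ i ≤ n, f i ∈ F_ball a N par p i := by
    intro i
    induction i with
    | zero => intro _; rw [hf0]; simp [F_ball]
    | succ i ih =>
      intro hi
      have h2 := ih (by omega)
      rw [F_ball, Finset.mem_union]
      right
      rw [Finset.mem_biUnion]
      exact ⟨f i, h2, F_adj_nb a N par _ _ (hf i (by omega))⟩
  rw [← hfn]
  exact h1 n le_rfl

/-- the claim for one vertex -/
def F_claim (a : ℕ) (par : ℕ → Bool → ℕ) (i : ℕ) : Prop :=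
  (∀ b, Nat.log 2 (par i b) + 1 = Nat.log 2 i) ∧
    ∀ n, Walk (CAdj (fun j => a ≤ j ∧ j < i) par) (par i false) (par i true) n →
      2 ^ (bb i + 1) - 2 ≤ n

lemma F_cadj_congr (E : ℕ → Prop) (par par' : ℕ → Bool → ℕ)
    (h : ∀ i, E i → par i = par' i) : CAdj E par = CAdj E par' := by
  funext x y
  apply propext
  constructor
  · rintro ⟨i, b, hi, h1⟩
    refine ⟨i, b, hi, ?_⟩
    rw [← h i hi]
    exact h1
  · rintro ⟨i, b, hi, h1⟩
    refine ⟨i, b, hi, ?_⟩
    rw [h i hi]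
    exact h1

lemma F_claim_congr (a : ℕ) (par par' : ℕ → Bool → ℕ) (i : ℕ)
    (h : ∀ j, a ≤ j → j ≤ i → par j = par' j) (hi : a ≤ i) (hc : F_claim a par i) :
    F_claim a par' i := by
  unfold F_claim at *
  rw [← h i hi le_rfl, ← F_cadj_congr (fun j => a ≤ j ∧ j < i) par par'
    (fun j hj => h j hj.1 hj.2.le)]
  exact hc

/-- the induction hypothesis -/
def F_Good (a N : ℕ) (par : ℕ → Bool → ℕ) : Prop :=
  (∀ i, a ≤ i → i < N → F_claim a par i) ∧ ∀ v, F_cnt a N par v ≤ 6

lemma F_sat (a N L : ℕ) (par : ℕ → Bool → ℕ) (hg : F_Good a N par) (S : Finset ℕ)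
    (hS : ∀ v ∈ S, 2 ^ L ≤ v ∧ v < 2 ^ (L + 1) ∧ 6 ≤ F_cnt a N par v) :
    6 * S.card ≤ 2 * (N - 2 ^ (L + 1)) := by
  classical
  obtain ⟨T, hT⟩ : ∃ T : Finset (ℕ × Bool), T = (F_pairs a N).filter (fun x => par x.1 x.2 ∈ S) :=
    ⟨_, rfl⟩
  have h1 : T.card = ∑ v ∈ S, (T.filter (fun x => par x.1 x.2 = v)).card := by
    apply Finset.card_eq_sum_card_fiberwise
    intro x hx
    rw [hT] at hx
    exact (Finset.mem_filter.1 hx).2
  have h2 : ∀ v ∈ S, 6 ≤ (T.filter (fun x => par x.1 x.2 = v)).card := by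
    intro v hv
    have h3 : T.filter (fun x => par x.1 x.2 = v) =
        (F_pairs a N).filter (fun x => par x.1 x.2 = v) := by
      ext x
      rw [hT]
      simp only [Finset.mem_filter]
      constructor
      · rintro ⟨⟨h4, _⟩, h5⟩
        exact ⟨h4, h5⟩
      · rintro ⟨h4, h5⟩
        exact ⟨⟨h4, by rw [h5]; exact hv⟩, h5⟩
    rw [h3]
    exact (hS v hv).2.2
  have h3 : S.card * 6 ≤ T.card := by
    rw [h1]
    have := Finset.card_nsmul_le_sum S _ 6 h2
    simpa using this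
  have h4 : T ⊆ F_pairs (2 ^ (L + 1)) N := by
    intro x hx
    rw [hT, Finset.mem_filter, F_mem_pairs] at hx
    obtain ⟨⟨hx1, hx2⟩, hx3⟩ := hx
    rw [F_mem_pairs]
    refine ⟨?_, hx2⟩
    have h5 := (hg.1 x.1 hx1 hx2).1 x.2
    have h6 := hS _ hx3
    have h7 : Nat.log 2 (par x.1 x.2) = L := Nat.log_eq_of_pow_le_of_lt_pow h6.1 h6.2.1
    rw [h7] at h5
    have h8 : x.1 ≠ 0 := by
      intro h0
      rw [h0, Nat.log_zero_right] at h5
      omega
    have h9 := Nat.pow_log_le_self 2 h8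
    rwa [← h5] at h9
  have h5 := Finset.card_le_card h4
  have h6 : (F_pairs (2 ^ (L + 1)) N).card = (N - 2 ^ (L + 1)) * 2 := by
    unfold F_pairs
    rw [Finset.card_product, Nat.card_Ico, Finset.card_univ, Fintype.card_bool]
  omega

lemma F_exists (a N : ℕ) (hN : 2 ^ 33 ≤ N) (par : ℕ → Bool → ℕ) (hg : F_Good a N par) :
    ∃ p q, p ≠ q ∧ Nat.log 2 p + 1 = Nat.log 2 N ∧ Nat.log 2 q + 1 = Nat.log 2 N ∧
      F_cnt a N par p ≤ 5 ∧ F_cnt a N par q ≤ 5 ∧
      ∀ n, Walk (CAdj (fun j => a ≤ j ∧ j < N) par) p q n → 2 ^ (bb N + 1) - 2 ≤ n := by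
  classical
  have hN0 : N ≠ 0 := by
    have : 0 < 2 ^ 33 := by positivity
    omega
  have hlog : 33 ≤ Nat.log 2 N := by
    by_contra h
    have h1 := Nat.lt_pow_succ_log_self (by norm_num : 1 < 2) N
    have h2 : 2 ^ (Nat.log 2 N).succ ≤ 2 ^ 33 := Nat.pow_le_pow_right (by norm_num) (by omega)
    omega
  obtain ⟨L, hL⟩ : ∃ L, Nat.log 2 N = L + 1 := ⟨Nat.log 2 N - 1, by omega⟩
  have hL32 : 32 ≤ L := by omega
  have hN1 : 2 ^ (L + 1) ≤ N := by
    rw [← hL]; exact Nat.pow_log_le_self 2 hN0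
  have hN2 : N < 2 ^ (L + 2) := by
    have h1 := Nat.lt_pow_succ_log_self (by norm_num : 1 < 2) N
    rw [hL] at h1
    exact h1
  obtain ⟨z, hz⟩ : ∃ z, z = 2 ^ (L - 12) := ⟨_, rfl⟩
  have hz1 : 1 ≤ z := by rw [hz]; exact Nat.one_le_two_pow
  have hzL : 2 ^ L = 4096 * z := by
    rw [hz, show (4096 : ℕ) = 2 ^ 12 by norm_num, ← pow_add]
    congr 1
    omega
  have hL1 : 2 ^ (L + 1) = 8192 * z := by rw [pow_succ, hzL]; ring
  have hL2 : 2 ^ (L + 2) = 16384 * z := by
    rw [show L + 2 = (L + 1) + 1 by ring, pow_succ, hL1]; ring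
  obtain ⟨V, hV⟩ : ∃ V : Finset ℕ, V = Finset.Ico (2 ^ L) (2 ^ (L + 1)) := ⟨_, rfl⟩
  have hVc : V.card = 4096 * z := by
    rw [hV, Nat.card_Ico, hzL, hL1]; omega
  obtain ⟨S, hS⟩ : ∃ S : Finset ℕ, S = V.filter (fun v => 6 ≤ F_cnt a N par v) := ⟨_, rfl⟩
  have hSc := F_sat a N L par hg S (by
    intro v hv
    rw [hS, Finset.mem_filter, hV, Finset.mem_Ico] at hv
    exact ⟨hv.1.1, hv.1.2, hv.2⟩)
  have hSc2 : 6 * S.card < 16384 * z := by omega
  have hlogV : ∀ v ∈ V, Nat.log 2 v + 1 = Nat.log 2 N := by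
    intro v hv
    rw [hV, Finset.mem_Ico] at hv
    rw [hL, Nat.log_eq_of_pow_le_of_lt_pow hv.1 hv.2]
  have hcnt5 : ∀ v ∈ V, v ∉ S → F_cnt a N par v ≤ 5 := by
    intro v hv hvS
    by_contra h
    apply hvS
    rw [hS, Finset.mem_filter]
    exact ⟨hv, by omega⟩
  obtain ⟨p, hpV, hpS⟩ : ∃ p ∈ V, p ∉ S :=
    Finset.exists_mem_notMem_of_card_lt_card (by rw [hVc]; omega)
  -- the radius
  obtain ⟨R, hR⟩ : ∃ R, R = 2 ^ (bb N + 1) - 3 := ⟨_, rfl⟩
  have hbb : bb N = Nat.log 2 (L / 8) := by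
    unfold bb
    rw [hL, Nat.add_sub_cancel]
  have hL8 : 4 ≤ L / 8 := by omega
  have hbb1 : 2 ^ bb N ≤ L / 8 := by
    rw [hbb]; exact Nat.pow_log_le_self 2 (by omega)
  have hbb2 : 4 ≤ 2 ^ bb N := by
    have h1 : 2 ≤ bb N := by
      rw [hbb]
      by_contra h
      have h1 := Nat.lt_pow_succ_log_self (by norm_num : 1 < 2) (L / 8)
      have h2 : 2 ^ (Nat.log 2 (L / 8)).succ ≤ 2 ^ 2 :=
        Nat.pow_le_pow_right (by norm_num) (by omega)
      omega
    calc 4 = 2 ^ 2 := by norm_num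
      _ ≤ 2 ^ bb N := Nat.pow_le_pow_right (by norm_num) h1
  have hR4 : 4 * R ≤ L - 12 := by
    rw [hR, pow_succ]
    omega
  have hBc : (F_ball a N par p R).card ≤ z := by
    refine (F_ball_card a N par hg.2 p R).trans ?_
    calc 9 ^ R ≤ 16 ^ R := Nat.pow_le_pow_left (by norm_num) R
      _ = 2 ^ (4 * R) := by rw [pow_mul]; norm_num
      _ ≤ 2 ^ (L - 12) := Nat.pow_le_pow_right (by norm_num) hR4
      _ = z := hz.symm
  obtain ⟨q, hqV, hq⟩ : ∃ q ∈ V, q ∉ S ∪ F_ball a N par p R := by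
    apply Finset.exists_mem_notMem_of_card_lt_card
    have h1 := Finset.card_union_le S (F_ball a N par p R)
    rw [hVc]
    omega
  rw [Finset.mem_union, not_or] at hq
  refine ⟨p, q, ?_, hlogV p hpV, hlogV q hqV, hcnt5 p hpV hpS, hcnt5 q hqV hq.1, ?_⟩
  · rintro rfl
    apply hq.2
    apply F_ball_mono a N par p (Nat.zero_le R)
    simp [F_ball]
  · intro n hn
    by_contra hlt
    apply hq.2
    have h1 := F_walk_ball a N par p q n hn
    apply F_ball_mono a N par p _ h1
    rw [hR]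
    omega

lemma F_step (N : ℕ) (hN : 2 ^ 33 ≤ N) (par : ℕ → Bool → ℕ) (hg : F_Good (2 ^ 33) N par) :
    ∃ c : Bool → ℕ, F_Good (2 ^ 33) (N + 1) (Function.update par N c) := by
  classical
  obtain ⟨a, ha⟩ : ∃ a, a = 2 ^ 33 := ⟨_, rfl⟩
  rw [← ha] at hg ⊢
  have haN : a ≤ N := by rw [ha]; exact hN
  obtain ⟨p, q, hpq, hp, hq, hcp, hcq, hw⟩ := F_exists a N hN par hg
  refine ⟨fun b => if b then q else p, ?_, ?_⟩
  · intro i hi1 hi2
    by_cases hiN : i = N
    · subst hiN
      have h1 : CAdj (fun j => a ≤ j ∧ j < i) (Function.update par i fun b => if b then q else p) =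
          CAdj (fun j => a ≤ j ∧ j < i) par := by
        apply F_cadj_congr
        intro j hj
        rw [Function.update_of_ne (by omega)]
      refine ⟨?_, ?_⟩
      · intro b
        rw [Function.update_self]
        cases b
        · simpa using hp
        · simpa using hq
      · intro n hn
        rw [h1, Function.update_self] at hn
        exact hw n (by simpa using hn)
    · refine F_claim_congr a par _ i ?_ hi1 (hg.1 i hi1 (by omega))
      intro j _ hj
      rw [Function.update_of_ne (by omega)]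
  · intro v
    unfold F_cnt
    have h1 : (F_pairs a (N + 1)).filter (fun x =>
        (Function.update par N fun b => if b then q else p) x.1 x.2 = v) ⊆
        (F_pairs a N).filter (fun x => par x.1 x.2 = v) ∪
          (if p = v then {(N, false)} else if q = v then {(N, true)} else ∅) := by
      intro x hx
      rw [Finset.mem_filter, F_mem_pairs] at hx
      obtain ⟨⟨hx1, hx2⟩, hx3⟩ := hx
      obtain ⟨x1, x2⟩ := x
      simp only at hx1 hx2 hx3
      by_cases hxN : x1 = N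
      · subst hxN
        rw [Function.update_self] at hx3
        rw [Finset.mem_union]
        right
        cases x2
        · simp only [Bool.false_eq_true, if_false] at hx3
          rw [if_pos hx3]
          simp
        · simp only [if_true] at hx3
          have hpv : ¬ p = v := fun h => hpq (h.trans hx3.symm)
          rw [if_neg hpv, if_pos hx3]
          simp
      · rw [Function.update_of_ne hxN] at hx3
        rw [Finset.mem_union]
        left
        rw [Finset.mem_filter, F_mem_pairs]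
        exact ⟨⟨hx1, by simp only; omega⟩, hx3⟩
    refine (Finset.card_le_card h1).trans ((Finset.card_union_le _ _).trans ?_)
    have h6 := hg.2 v
    unfold F_cnt at h6 hcp hcq
    split_ifs with h7 h8
    · subst h7
      simp only [Finset.card_singleton]
      omega
    · subst h8
      simp only [Finset.card_singleton]
      omega
    · simpa using h6

/-- greedy construction of the levelled graph -/
theorem greedy : ∃ par : ℕ → Bool → ℕ, ∀ i, 2 ^ 33 ≤ i →
    (∀ b, Nat.log 2 (par i b) + 1 = Nat.log 2 i) ∧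
    ∀ n, Walk (CAdj (fun j => 2 ^ 33 ≤ j ∧ j < i) par) (par i false) (par i true) n →
      2 ^ (bb i + 1) - 2 ≤ n := by
  classical
  have hstep := fun (N : ℕ) (hN : 2 ^ 33 ≤ N) (par : ℕ → Bool → ℕ)
    (hg : F_Good (2 ^ 33) N par) => F_step N hN par hg
  have h0 : F_Good (2 ^ 33) (2 ^ 33 + 0) (fun _ _ => 0) := by
    refine ⟨fun i h1 h2 => absurd h2 (by omega), fun v => ?_⟩
    unfold F_cnt F_pairs
    rw [Nat.add_zero, Finset.Ico_self]
    simp
  choose! c hc using hstep
  -- the sequence of states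
  obtain ⟨st, hst0, hst1⟩ : ∃ st : ℕ → ℕ → Bool → ℕ, st 0 = (fun _ _ => 0) ∧
      ∀ k, st (k + 1) = Function.update (st k) (2 ^ 33 + k) (c (2 ^ 33 + k) (st k)) :=
    ⟨fun k => Nat.rec (fun _ _ => 0)
      (fun k s => Function.update s (2 ^ 33 + k) (c (2 ^ 33 + k) s)) k, rfl, fun k => rfl⟩
  have hgood : ∀ k, F_Good (2 ^ 33) (2 ^ 33 + k) (st k) := by
    intro k
    induction k with
    | zero => rw [hst0]; exact h0
    | succ k ih =>
      rw [hst1]
      exact hc (2 ^ 33 + k) (Nat.le_add_right _ _) (st k) ih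
  have hstable : ∀ k l j, k ≤ l → j < 2 ^ 33 + k → st l j = st k j := by
    intro k l j hkl hj
    induction l with
    | zero =>
      have : k = 0 := by omega
      rw [this]
    | succ l ih =>
      by_cases hk : k = l + 1
      · rw [hk]
      · rw [hst1, Function.update_of_ne (by omega)]
        exact ih (by omega)
  refine ⟨fun i => st (i - 2 ^ 33 + 1) i, fun i hi => ?_⟩
  have h1 := (hgood (i - 2 ^ 33 + 1)).1 i hi (by omega)
  have h2 : F_claim (2 ^ 33) (fun i => st (i - 2 ^ 33 + 1) i) i := by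
    refine F_claim_congr (2 ^ 33) (st (i - 2 ^ 33 + 1)) _ i ?_ hi h1
    intro j hj hji
    exact hstable (j - 2 ^ 33 + 1) (i - 2 ^ 33 + 1) j (by omega) (by omega)
  exact h2

end JF
end H467G
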