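import Pool.Agent.H467G.D
set_option autoImplicit false

namespace H467G
namespace JG
open Real NNReal Filter Topology
theorem walk_nil {V : Type*} (Adj : V → V → Prop) (x : V) : Walk Adj x x 0 :=
  ⟨fun _ => x, rfl, rfl, fun i hi => absurd hi (Nat.not_lt_zero i)⟩

theorem walk_snoc {V : Type*} {Adj : V → V → Prop} {x y z : V} {n : ℕ} (h : Walk Adj x y n)
    (hyz : Adj y z) : Walk Adj x z (n + 1) := by
  obtain ⟨f, h0, hn, hf⟩ := h
  refine ⟨fun i => if i ≤ n then f i else z, by simp [h0], by simp, ?_⟩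
  intro i hi
  by_cases h1 : i + 1 ≤ n
  · have h2 : i ≤ n := by omega
    simp only [h1, h2, if_true]
    exact hf i (by omega)
  · have h2 : i = n := by omega
    subst h2
    simp only [le_refl, if_true, h1, if_false]
    rw [hn]; exact hyz

/-- the invariant -/
def Inv (E : ℕ → Prop) (par : ℕ → Bool → ℕ) (m : ℕ → ℕ) (m0 : ℕ) (p : ℕ)
    (x : ℕ × Bool × ℕ) (t : ℕ) : Prop :=
  (∃ c, x = (c, false, 0) ∧ ∃ r, Walk (CAdj E par) p c r ∧ r * m0 ≤ t) ∨
  (∃ i b s, x = (i, b, s) ∧ E i ∧ 0 < s ∧ s < m i ∧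
    ((∃ r, Walk (CAdj E par) p i r ∧ r * m0 + s ≤ t) ∨
     (∃ r, Walk (CAdj E par) p (par i b) r ∧ r * m0 + (m i - s) ≤ t)))

/-- the invariant expressed at the point `P i b s` -/
theorem inv_P {E : ℕ → Prop} {par : ℕ → Bool → ℕ} {m : ℕ → ℕ} {m0 : ℕ}
    (hm : ∀ i, E i → m0 ≤ m i) (hm1 : ∀ i, E i → 1 ≤ m i) {p i : ℕ} {b : Bool} {s t : ℕ} (hE : E i)
    (hs : s ≤ m i)
    (h : Inv E par m m0 p (P par m i b s) t) :
    (∃ r, Walk (CAdj E par) p i r ∧ r * m0 + s ≤ t) ∨
     (∃ r, Walk (CAdj E par) p (par i b) r ∧ r * m0 + (m i - s) ≤ t) := by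
  have hmi := hm1 i hE
  unfold P at h
  by_cases h0 : s = 0
  · subst h0
    rw [if_pos rfl] at h
    rcases h with ⟨c, hc, r, hr, hrt⟩ | ⟨i', b', s', hx, _, hs', _⟩
    · have : i = c := by
        have := congrArg Prod.fst hc
        simpa using this
      subst this
      exact Or.inl ⟨r, hr, by simpa using hrt⟩
    · have : (0 : ℕ) = s' := by
        have := congrArg (fun z => z.2.2) hx
        simpa using this
      omega
  · rw [if_neg h0] at h
    by_cases h1 : s = m i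
    · rw [if_pos h1] at h
      rcases h with ⟨c, hc, r, hr, hrt⟩ | ⟨i', b', s', hx, _, hs', _⟩
      · have : par i b = c := by
          have := congrArg Prod.fst hc
          simpa using this
        subst this
        exact Or.inr ⟨r, hr, by rw [h1]; simpa using hrt⟩
      · have : (0 : ℕ) = s' := by
          have := congrArg (fun z => z.2.2) hx
          simpa using this
        omega
    · rw [if_neg h1] at h
      rcases h with ⟨c, hc, r, hr, hrt⟩ | ⟨i', b', s', hx, _, hs', _, hh⟩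
      · have : s = 0 := by
          have := congrArg (fun z => z.2.2) hc
          simpa using this
        exact absurd this h0
      · have e1 : i = i' := congrArg Prod.fst hx
        have e2 : b = b' := congrArg (fun z => z.2.1) hx
        have e3 : s = s' := congrArg (fun z => z.2.2) hx
        subst e1; subst e2; subst e3
        exact hh

theorem P_inv {E : ℕ → Prop} {par : ℕ → Bool → ℕ} {m : ℕ → ℕ} {m0 : ℕ}
    (hm : ∀ i, E i → m0 ≤ m i) (hm1 : ∀ i, E i → 1 ≤ m i) {p i : ℕ} {b : Bool} {s t : ℕ} (hE : E i)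
    (hs : s ≤ m i)
    (h : (∃ r, Walk (CAdj E par) p i r ∧ r * m0 + s ≤ t) ∨
     (∃ r, Walk (CAdj E par) p (par i b) r ∧ r * m0 + (m i - s) ≤ t)) :
    Inv E par m m0 p (P par m i b s) t := by
  have hmi := hm1 i hE
  have hm0 := hm i hE
  unfold P
  by_cases h0 : s = 0
  · subst h0
    rw [if_pos rfl]
    left
    refine ⟨i, rfl, ?_⟩
    rcases h with ⟨r, hr, hrt⟩ | ⟨r, hr, hrt⟩
    · exact ⟨r, hr, by simpa using hrt⟩
    · refine ⟨r + 1, walk_snoc hr ⟨i, b, hE, Or.inr ⟨rfl, rfl⟩⟩, ?_⟩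
      rw [Nat.add_mul]; omega
  · rw [if_neg h0]
    by_cases h1 : s = m i
    · rw [if_pos h1]
      left
      refine ⟨par i b, rfl, ?_⟩
      rcases h with ⟨r, hr, hrt⟩ | ⟨r, hr, hrt⟩
      · refine ⟨r + 1, walk_snoc hr ⟨i, b, hE, Or.inl ⟨rfl, rfl⟩⟩, ?_⟩
        rw [Nat.add_mul]; omega
      · exact ⟨r, hr, by omega⟩
    · rw [if_neg h1]
      right
      exact ⟨i, b, s, rfl, hE, by omega, by omega, h⟩

/-- a walk in the subdivided graph between centres is shadowed by a coarse walk -/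
theorem shadow (E : ℕ → Prop) (par : ℕ → Bool → ℕ) (m : ℕ → ℕ) (m0 : ℕ)
    (hm : ∀ i, E i → m0 ≤ m i) (hm1 : ∀ i, E i → 1 ≤ m i) (p q l : ℕ)
    (h : Walk (EAdj E par m) (p, false, 0) (q, false, 0) l) :
    ∃ r, Walk (CAdj E par) p q r ∧ r * m0 ≤ l := by
  obtain ⟨f, hf0, hfl, hf⟩ := h
  have key : ∀ t, t ≤ l → Inv E par m m0 p (f t) t := by
    intro t
    induction t with
    | zero =>
      intro _
      left
      exact ⟨p, hf0, 0, walk_nil _ _, by simp⟩
    | succ t ih =>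
      intro ht
      have h1 := ih (by omega)
      obtain ⟨i, b, s, hE, hs, hxy⟩ := hf t (by omega)
      rcases hxy with ⟨hx, hy⟩ | ⟨hy, hx⟩
      · rw [hx] at h1
        rw [hy]
        have h2 := inv_P hm hm1 hE (by omega) h1
        apply P_inv hm hm1 hE (by omega)
        rcases h2 with ⟨r, hr, hrt⟩ | ⟨r, hr, hrt⟩
        · exact Or.inl ⟨r, hr, by omega⟩
        · exact Or.inr ⟨r, hr, by omega⟩
      · rw [hx] at h1
        rw [hy]
        have h2 := inv_P hm hm1 hE (by omega) h1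
        apply P_inv hm hm1 hE (by omega)
        rcases h2 with ⟨r, hr, hrt⟩ | ⟨r, hr, hrt⟩
        · exact Or.inl ⟨r, hr, by omega⟩
        · exact Or.inr ⟨r, hr, by omega⟩
  have h1 := key l le_rfl
  rw [hfl] at h1
  rcases h1 with ⟨c, hc, r, hr, hrt⟩ | ⟨i', b', s', hx, _, hs', _⟩
  · have : q = c := congrArg Prod.fst hc
    subst this
    exact ⟨r, hr, hrt⟩
  · have : (0 : ℕ) = s' := congrArg (fun z => z.2.2) hx
    omega

end JG
end H467G
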