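import Pool.Agent.H467G.D
set_option autoImplicit false

namespace H467G
namespace JH2
open Real NNReal Filter Topology
theorem P_zero (par : ℕ → Bool → ℕ) (m : ℕ → ℕ) (i : ℕ) (b : Bool) :
    P par m i b 0 = (i, false, 0) := by
  unfold P
  rw [if_pos rfl]

theorem P_m (par : ℕ → Bool → ℕ) (m : ℕ → ℕ) (i : ℕ) (b : Bool) (hm : 1 ≤ m i) :
    P par m i b (m i) = (par i b, false, 0) := by
  unfold P
  rw [if_neg (by omega), if_pos rfl]

theorem P_mid (par : ℕ → Bool → ℕ) (m : ℕ → ℕ) (i : ℕ) (b : Bool) (s : ℕ) (h0 : 1 ≤ s)
    (h1 : s < m i) : P par m i b s = (i, b, s) := by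
  unfold P
  rw [if_neg (by omega), if_neg (by omega)]

/-- the two legs of an ear together form a walk without backtracking -/
theorem ear_path (E : ℕ → Prop) (par : ℕ → Bool → ℕ) (m : ℕ → ℕ) (i : ℕ) (hE : E i)
    (hm : 1 ≤ m i) (hpar : ∀ b, par i b < i) (hne : par i false ≠ par i true) :
    ∃ e : ℕ → ℕ × Bool × ℕ, e 0 = (par i false, false, 0) ∧ e (m i) = (i, false, 0) ∧
      e (2 * m i) = (par i true, false, 0) ∧ (∀ t < 2 * m i, EAdj E par m (e t) (e (t + 1))) ∧
      ∀ t, t + 2 ≤ 2 * m i → e t ≠ e (t + 2) := by
  refine ⟨fun t => if t ≤ m i then P par m i false (m i - t) else P par m i true (t - m i),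
    ?_, ?_, ?_, ?_, ?_⟩
  · simp only [Nat.zero_le, if_true, Nat.sub_zero]
    exact P_m par m i false hm
  · simp only [le_refl, if_true, Nat.sub_self]
    exact P_zero par m i false
  · simp only
    rw [if_neg (by omega), show 2 * m i - m i = m i by omega]
    exact P_m par m i true hm
  · intro t ht
    simp only
    by_cases h1 : t + 1 ≤ m i
    · rw [if_pos (by omega), if_pos h1]
      refine ⟨i, false, m i - (t + 1), hE, by omega, Or.inr ⟨rfl, ?_⟩⟩
      rw [show m i - (t + 1) + 1 = m i - t by omega]
    · by_cases h2 : t ≤ m i
      · have h3 : t = m i := by omega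
        rw [if_pos h2, if_neg h1, h3, Nat.sub_self, P_zero]
        refine ⟨i, true, 0, hE, by omega, Or.inl ⟨(P_zero par m i true).symm, ?_⟩⟩
        rw [show m i + 1 - m i = 0 + 1 by omega]
      · rw [if_neg h2, if_neg h1]
        refine ⟨i, true, t - m i, hE, by omega, Or.inl ⟨rfl, ?_⟩⟩
        rw [show t + 1 - m i = t - m i + 1 by omega]
  · intro t ht
    simp only
    have hp0 : ∀ b, par i b ≠ i := fun b => (hpar b).ne
    by_cases h1 : t + 2 ≤ m i
    · rw [if_pos (by omega), if_pos h1]
      have hs : m i - (t + 2) < m i := by omega
      by_cases h3 : t = 0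
      · subst h3
        rw [Nat.sub_zero, P_m par m i false hm]
        by_cases h4 : m i - (0 + 2) = 0
        · rw [h4, P_zero]
          intro h
          exact hp0 false (Prod.ext_iff.1 h).1
        · rw [P_mid par m i false _ (by omega) hs]
          intro h
          exact hp0 false (Prod.ext_iff.1 h).1
      · rw [P_mid par m i false (m i - t) (by omega) (by omega)]
        by_cases h4 : m i - (t + 2) = 0
        · rw [h4, P_zero]
          intro h
          have := (Prod.ext_iff.1 (Prod.ext_iff.1 h).2).2
          simp only at this
          omega
        · rw [P_mid par m i false _ (by omega) hs]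
          intro h
          have := (Prod.ext_iff.1 (Prod.ext_iff.1 h).2).2
          simp only at this
          omega
    · by_cases h2 : t ≤ m i
      · rw [if_pos h2, if_neg h1]
        by_cases h3 : t = m i
        · rw [h3, Nat.sub_self, P_zero, show m i + 2 - m i = 2 by omega]
          by_cases h4 : m i = 2
          · have := P_m par m i true hm
            rw [h4] at this
            rw [this]
            intro h
            exact hp0 true (Prod.ext_iff.1 h).1.symm
          · rw [P_mid par m i true 2 (by omega) (by omega)]
            intro h
            have := (Prod.ext_iff.1 (Prod.ext_iff.1 h).2).2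
            simp only at this
            omega
        · rw [show m i - t = 1 by omega, show t + 2 - m i = 1 by omega]
          by_cases h4 : m i = 1
          · have e1 := P_m par m i true hm
            have e2 := P_m par m i false hm
            rw [h4] at e1 e2
            rw [e1, e2]
            intro h
            exact hne (Prod.ext_iff.1 h).1
          · rw [P_mid par m i true 1 (by omega) (by omega),
              P_mid par m i false 1 (by omega) (by omega)]
            intro h
            have := (Prod.ext_iff.1 (Prod.ext_iff.1 h).2).1
            exact Bool.false_ne_true this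
      · rw [if_neg h2, if_neg h1]
        rw [P_mid par m i true (t - m i) (by omega) (by omega)]
        by_cases h4 : t + 2 - m i = m i
        · rw [h4, P_m par m i true hm]
          intro h
          exact hp0 true (Prod.ext_iff.1 h).1.symm
        · rw [P_mid par m i true _ (by omega) (by omega)]
          intro h
          have := (Prod.ext_iff.1 (Prod.ext_iff.1 h).2).2
          simp only at this
          omega

end JH2
end H467G
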