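import Pool.Agent.H467G.D
set_option autoImplicit false

namespace H467G
namespace JH3
open Real NNReal Filter Topology
theorem ht_P (par : ℕ → Bool → ℕ) (hpar : ∀ i, 2 ^ 33 ≤ i → ∀ b, Nat.log 2 (par i b) + 1 = Nat.log 2 i)
    (k : ℕ) (i : ℕ) (b : Bool) (s : ℕ) (hi : 2 ^ 33 ≤ i) (hb : bb i ≤ k) (_hs : s ≤ 2 ^ (k - bb i)) :
    ht (Nat.log 2 (P par (fun i => 2 ^ (k - bb i)) i b s).1) -
      ((P par (fun i => 2 ^ (k - bb i)) i b s).2.2 : ℝ) * (π / 2 ^ k) =
      ht (Nat.log 2 i) - s * (π / 2 ^ k) := by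
  unfold P
  by_cases h0 : s = 0
  · rw [if_pos h0, h0]
  · rw [if_neg h0]
    by_cases h1 : s = 2 ^ (k - bb i)
    · rw [if_pos h1]
      have h2 := hpar i hi b
      have h3 : 33 ≤ Nat.log 2 i := Nat.le_log_of_pow_le (by norm_num) hi
      have h4 : ht (Nat.log 2 i) = ht (Nat.log 2 (par i b)) + lam (Nat.log 2 (par i b)) := by
        rw [← h2]
        unfold ht
        rw [Finset.sum_Ico_succ_top (by omega)]
      have h5 : lam (Nat.log 2 (par i b)) = π / 2 ^ bb i := by
        unfold lam bb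
        have : Nat.log 2 (par i b) = Nat.log 2 i - 1 := by omega
        rw [this]
      have h6 : (s : ℝ) * (π / 2 ^ k) = π / 2 ^ bb i := by
        rw [h1]
        have : (2 : ℝ) ^ k = 2 ^ (k - bb i) * 2 ^ bb i := by
          rw [← pow_add]; congr 1; omega
        push_cast
        rw [this]
        field_simp
      simp only [Nat.cast_zero, zero_mul, sub_zero]
      rw [h4, h5, h6]; ring
    · rw [if_neg h1]

/-- heights are Lipschitz -/
theorem height_lip (par : ℕ → Bool → ℕ) (hpar : ∀ i, 2 ^ 33 ≤ i → ∀ b, Nat.log 2 (par i b) + 1 = Nat.log 2 i)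
    (k : ℕ) (v w n : ℕ)
    (h : Walk (EAdj (fun i => 2 ^ 33 ≤ i ∧ bb i ≤ k) par (fun i => 2 ^ (k - bb i)))
      (v, false, 0) (w, false, 0) n) :
    |ht (Nat.log 2 v) - ht (Nat.log 2 w)| ≤ n * (π / 2 ^ k) := by
  obtain ⟨f, hf0, hfn, hf⟩ := h
  let H : ℕ × Bool × ℕ → ℝ := fun x => ht (Nat.log 2 x.1) - (x.2.2 : ℝ) * (π / 2 ^ k)
  have hstep : ∀ i < n, |H (f i) - H (f (i + 1))| ≤ π / 2 ^ k := by
    intro i hi
    obtain ⟨j, b, s, ⟨hj1, hj2⟩, hs, hxy⟩ := hf i hi
    have hpk : 0 ≤ π / (2 : ℝ) ^ k := by positivity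
    have e1 := ht_P par hpar k j b s hj1 hj2 hs.le
    have e2 := ht_P par hpar k j b (s + 1) hj1 hj2 hs
    push_cast at e2
    rcases hxy with ⟨hx, hy⟩ | ⟨hy, hx⟩
    · rw [hx, hy]
      simp only [H]
      rw [e1, e2, abs_le]
      constructor <;> nlinarith
    · rw [hx, hy]
      simp only [H]
      rw [e1, e2, abs_le]
      constructor <;> nlinarith
  have hind : ∀ m ≤ n, |H (f 0) - H (f m)| ≤ m * (π / 2 ^ k) := by
    intro m
    induction m with
    | zero => intro _; simp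
    | succ m ih =>
      intro hm
      have h1 := ih (by omega)
      have h2 := hstep m (by omega)
      have h3 : H (f 0) - H (f (m + 1)) = (H (f 0) - H (f m)) + (H (f m) - H (f (m + 1))) := by ring
      rw [h3]
      refine (abs_add_le _ _).trans ?_
      push_cast
      linarith
  have h1 := hind n le_rfl
  rw [hf0, hfn] at h1
  simpa [H] using h1

end JH3
end H467G
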