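import Pool.Agent.H467G.D
import Pool.Agent.H467G.JB
import Pool.Agent.H467G.JC0
import Pool.Agent.H467G.JC1
import Pool.Agent.H467G.JC2
import Pool.Agent.H467G.JC3
import Pool.Agent.H467G.JE
import Pool.Agent.H467G.JF
import Pool.Agent.H467G.JG
import Pool.Agent.H467G.JH2
import Pool.Agent.H467G.JH3
set_option autoImplicit false
namespace H467G
open Real NNReal Filter Topology

theorem P_ne (par : ℕ → Bool → ℕ) (m : ℕ → ℕ) (i : ℕ) (b : Bool) (s : ℕ)
    (hpar : par i b < i) : P par m i b s ≠ P par m i b (s + 1) := by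
  intro h
  have h2 := congrArg (fun x : ℕ × Bool × ℕ => x.1) h
  have h3 := congrArg (fun x : ℕ × Bool × ℕ => x.2.2) h
  unfold P at h2 h3
  split_ifs at h2 h3 <;> dsimp only at h2 h3 <;> omega

theorem EAdj_irrefl (E : ℕ → Prop) (par : ℕ → Bool → ℕ) (m : ℕ → ℕ)
    (hpar : ∀ i, E i → ∀ b, par i b < i) (x : ℕ × Bool × ℕ) : ¬ EAdj E par m x x := by
  rintro ⟨i, b, s, hE, hs, ⟨h1, h2⟩ | ⟨h1, h2⟩⟩
  · exact P_ne par m i b s (hpar i hE b) (h1.symm.trans h2)
  · exact P_ne par m i b s (hpar i hE b) (h1.symm.trans h2)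

theorem EAdj_symm (E : ℕ → Prop) (par : ℕ → Bool → ℕ) (m : ℕ → ℕ)
    (x y : ℕ × Bool × ℕ) (h : EAdj E par m x y) : EAdj E par m y x := by
  obtain ⟨i, b, s, hE, hs, ⟨h1, h2⟩ | ⟨h1, h2⟩⟩ := h
  · exact ⟨i, b, s, hE, hs, Or.inr ⟨h1, h2⟩⟩
  · exact ⟨i, b, s, hE, hs, Or.inl ⟨h1, h2⟩⟩

theorem Walk_mono {V : Type*} {Adj Adj' : V → V → Prop} (h : ∀ x y, Adj x y → Adj' x y) {x y : V} {n : ℕ}
    (hw : Walk Adj x y n) : Walk Adj' x y n := by
  obtain ⟨f, h0, h1, h2⟩ := hw
  exact ⟨f, h0, h1, fun i hi => h _ _ (h2 i hi)⟩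

theorem bb_mono : Monotone bb := by
  intro i j hij
  unfold bb
  apply Nat.log_mono_right
  apply Nat.div_le_div_right
  exact Nat.sub_le_sub_right (Nat.log_mono_right hij) 1

theorem log_ge {i : ℕ} (hi : 2 ^ 33 ≤ i) : 33 ≤ Nat.log 2 i := by
  have := Nat.log_mono_right (b := 2) hi
  rwa [Nat.log_pow (by norm_num)] at this

theorem bb_ge {i : ℕ} (hi : 2 ^ 33 ≤ i) : 2 ≤ bb i := by
  unfold bb
  have h1 := log_ge hi
  have h2 : 2 ^ 2 ≤ (Nat.log 2 i - 1) / 8 := by omega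
  have := Nat.log_mono_right (b := 2) h2
  rwa [Nat.log_pow (by norm_num)] at this

theorem par_lt {par : ℕ → Bool → ℕ} {i : ℕ} {b : Bool} (h : Nat.log 2 (par i b) + 1 = Nat.log 2 i) :
    par i b < i := by
  by_contra hcon
  push Not at hcon
  have := Nat.log_mono_right (b := 2) hcon
  omega

/-- subdivided graph at index `k` -/
def Gr (par : ℕ → Bool → ℕ) (k : ℕ) : ℕ × Bool × ℕ → ℕ × Bool × ℕ → Prop :=
  EAdj (fun i => 2 ^ 33 ≤ i ∧ bb i ≤ k) par (fun i => 2 ^ (k - bb i))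

/-- the property of the greedy graph -/
def Greedy (par : ℕ → Bool → ℕ) : Prop := ∀ i, 2 ^ 33 ≤ i →
    (∀ b, Nat.log 2 (par i b) + 1 = Nat.log 2 i) ∧
    ∀ n, Walk (CAdj (fun j => 2 ^ 33 ≤ j ∧ j < i) par) (par i false) (par i true) n →
      2 ^ (bb i + 1) - 2 ≤ n

theorem Gr_nocyc {par : ℕ → Bool → ℕ} (hp : Greedy par) (k : ℕ) : NoCyc (Gr par k) (2 * 2 ^ k) := by
  apply ear _ _ _ _ (fun i hi b => par_lt ((hp i hi.1).1 b)) (fun i _ => Nat.one_le_two_pow)
  intro i hi l hw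
  obtain ⟨r, hr, hrl⟩ := JG.shadow (fun j => (2 ^ 33 ≤ j ∧ bb j ≤ k) ∧ j < i) par
    (fun i => 2 ^ (k - bb i)) (2 ^ (k - bb i))
    (fun j hj => Nat.pow_le_pow_right (by norm_num) (by have := bb_mono hj.2.le; omega))
    (fun j _ => Nat.one_le_two_pow) _ _ l hw
  have h1 := (hp i hi.1).2 r (Walk_mono (by
    rintro x y ⟨j, b, hE, h⟩
    exact ⟨j, b, ⟨hE.1.1, hE.2⟩, h⟩) hr)
  have h2 : 2 * 2 ^ k = 2 ^ (bb i + 1) * 2 ^ (k - bb i) := by
    rw [← pow_add, ← pow_succ']
    congr 1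
    have := hi.2
    omega
  have h3 : 2 ^ (bb i + 1) ≤ r + 2 := by omega
  calc 2 * 2 ^ k = 2 ^ (bb i + 1) * 2 ^ (k - bb i) := h2
    _ ≤ (r + 2) * 2 ^ (k - bb i) := Nat.mul_le_mul_right _ h3
    _ = r * 2 ^ (k - bb i) + 2 * 2 ^ (k - bb i) := by ring
    _ ≤ l + 2 * 2 ^ (k - bb i) := by omega

theorem dd_le {V : Type*} {Adj : V → V → Prop} {M : ℕ} {x y : V} {n : ℕ} (h : Walk Adj x y n) :
    dd Adj M x y ≤ n := Nat.sInf_le (Or.inr h)

theorem dd_mem {V : Type*} (Adj : V → V → Prop) (M : ℕ) (x y : V) :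
    dd Adj M x y = M ∨ Walk Adj x y (dd Adj M x y) :=
  Nat.sInf_mem (s := {n | n = M ∨ Walk Adj x y n}) ⟨M, Or.inl rfl⟩

theorem dd_min {V : Type*} (Adj : V → V → Prop) (M : ℕ) (x y : V) (n : ℕ) (hn : n < dd Adj M x y) :
    ¬ Walk Adj x y n := fun h => absurd (dd_le (M := M) h) (by omega)

theorem Gr_dd {par : ℕ → Bool → ℕ} (hp : Greedy par) (k : ℕ) (i : ℕ) (hi : 2 ^ 33 ≤ i) (hk : bb i ≤ k) :
    (∀ b, dd (Gr par k) (2 ^ k) (i, false, 0) (par i b, false, 0) = 2 ^ (k - bb i)) ∧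
    dd (Gr par k) (2 ^ k) (par i false, false, 0) (par i true, false, 0) = 2 * 2 ^ (k - bb i) := by
  have hlt : ∀ j, 2 ^ 33 ≤ j → ∀ b, par j b < j := fun j hj b => par_lt ((hp j hj).1 b)
  have hsymm := EAdj_symm (fun i => 2 ^ 33 ≤ i ∧ bb i ≤ k) par (fun i => 2 ^ (k - bb i))
  have hB : Back (Gr par k) (2 * 2 ^ k) := JC0.back _ (EAdj_irrefl _ _ _ (fun i hi b => hlt i hi.1 b)) _ (Gr_nocyc hp k)
  obtain ⟨hd0, hds, hdt, hdM, -⟩ := JC3.disc (Gr par k) hsymm (2 ^ k) (tl _ hsymm _ hB)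
  have hb2 := bb_ge hi
  have hne : par i false ≠ par i true := by
    intro h
    have h1 := (hp i hi).2 0 ⟨fun _ => par i false, rfl, h, fun j hj => by omega⟩
    have h2 : 2 ^ 3 ≤ 2 ^ (bb i + 1) := Nat.pow_le_pow_right (by norm_num) (by omega)
    omega
  obtain ⟨e, e0, e1, e2, e3, e4⟩ := JH2.ear_path (fun i => 2 ^ 33 ≤ i ∧ bb i ≤ k) par
    (fun i => 2 ^ (k - bb i)) i ⟨hi, hk⟩ Nat.one_le_two_pow (hlt i hi) hne
  set m := 2 ^ (k - bb i) with hm
  have hm1 : 1 ≤ m := Nat.one_le_two_pow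
  have hmk : 4 * m ≤ 2 ^ k := by
    calc 4 * m = 2 ^ 2 * 2 ^ (k - bb i) := by rw [hm]; norm_num
      _ = 2 ^ (2 + (k - bb i)) := by rw [pow_add]
      _ ≤ 2 ^ k := Nat.pow_le_pow_right (by norm_num) (by omega)
  have hw : Walk (Gr par k) (par i false, false, 0) (par i true, false, 0) (2 * m) := ⟨e, e0, e2, e3⟩
  have hle := dd_le (M := 2 ^ k) hw
  have hmain : dd (Gr par k) (2 ^ k) (par i false, false, 0) (par i true, false, 0) = 2 * m := by
    rcases dd_mem (Gr par k) (2 ^ k) (par i false, false, 0) (par i true, false, 0) with h | h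
    · omega
    · have hmin := dd_min (Gr par k) (2 ^ k) (par i false, false, 0) (par i true, false, 0)
      set d := dd (Gr par k) (2 ^ k) (par i false, false, 0) (par i true, false, 0) with hdd
      obtain ⟨f, f0, f1, f2⟩ := h
      symm
      apply JC1.nb_unique (Gr par k) hsymm _ hB (2 * m) d e f e3 f2 (by rw [e0, f0]) (by rw [e2, f1]) e4
      · apply JC1.min_nb (Gr par k) d f f2
        rw [f0, f1]
        exact hmin
      · omega
  have hw0 : Walk (Gr par k) (par i false, false, 0) (i, false, 0) m :=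
    ⟨e, e0, e1, fun t ht => e3 t (by omega)⟩
  have hw1 : Walk (Gr par k) (i, false, 0) (par i true, false, 0) m :=
    ⟨fun t => e (m + t), by simpa using e1, by simp only; rw [← two_mul]; exact e2,
      fun t ht => e3 (m + t) (by omega)⟩
  have g0 := dd_le (M := 2 ^ k) hw0
  have g1 := dd_le (M := 2 ^ k) hw1
  have g2 := hdt (par i false, false, 0) (i, false, 0) (par i true, false, 0)
  refine ⟨fun b => ?_, hmain⟩
  cases b
  · rw [hds]; omega
  · omega

theorem graph_ang : ∃ (par : ℕ → Bool → ℕ) (G : Type) (A : G → G → ℝ) (c : ℕ → G), IsAng A ∧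
    (∀ i, 2 ^ 33 ≤ i → ∀ b, Nat.log 2 (par i b) + 1 = Nat.log 2 i) ∧
    (∀ i, 2 ^ 33 ≤ i → ∀ b, A (c i) (c (par i b)) = lam (Nat.log 2 i - 1)) ∧
    (∀ i, 2 ^ 33 ≤ i → A (c (par i false)) (c (par i true)) = 2 * lam (Nat.log 2 i - 1)) ∧
    (∀ v w, min π |ht (Nat.log 2 v) - ht (Nat.log 2 w)| ≤ A (c v) (c w)) := by
  obtain ⟨par, hp⟩ := JF.greedy
  have hp' : Greedy par := hp
  have hu : ∀ k : ℕ, 0 < π / 2 ^ k := fun k => by positivity
  have huk : ∀ k : ℕ, π / 2 ^ k * ((2 ^ k : ℕ) : ℝ) = π := fun k => by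
    push_cast
    field_simp
  have hlt : ∀ j, 2 ^ 33 ≤ j → ∀ b, par j b < j := fun j hj b => par_lt ((hp j hj).1 b)
  have hdisc : ∀ k, _ := fun k => JC3.disc (Gr par k) (EAdj_symm _ _ _) (2 ^ k) (tl _ (EAdj_symm _ _ _) _
    (JC0.back _ (EAdj_irrefl _ _ _ (fun i hi b => hlt i hi.1 b)) _ (Gr_nocyc hp' k)))
  obtain ⟨A', hA, hA1, hA2⟩ := JB.ultra
    (fun k x y => π / 2 ^ k * (dd (Gr par k) (2 ^ k) x y : ℝ)) (fun k => π / 2 ^ k)
    (by
      have h := (tendsto_pow_atTop_nhds_zero_of_lt_one (r := (1/2 : ℝ)) (by norm_num) (by norm_num)).const_mul π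
      rw [mul_zero] at h
      refine h.congr fun k => ?_
      rw [one_div, inv_pow, ← div_eq_mul_inv])
    (fun k x => by simp [(hdisc k).1 x])
    (fun k x y => by rw [(hdisc k).2.1 x y])
    (fun k x y z => by
      have h := (hdisc k).2.2.1 x y z
      have h' : (dd (Gr par k) (2 ^ k) x z : ℝ) ≤ dd (Gr par k) (2 ^ k) x y + dd (Gr par k) (2 ^ k) y z := by
        exact_mod_cast h
      have := mul_le_mul_of_nonneg_left h' (hu k).le
      simpa [mul_add] using this)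
    (fun k x y => by have := (hu k).le; positivity)
    (fun k x y => by
      have h := (hdisc k).2.2.2.1 x y
      have h' : (dd (Gr par k) (2 ^ k) x y : ℝ) ≤ ((2 ^ k : ℕ) : ℝ) := by exact_mod_cast h
      have := mul_le_mul_of_nonneg_left h' (hu k).le
      rwa [huk] at this)
    (by
      intro k x y hxy θ hθ0 hθ1
      have hlt' : dd (Gr par k) (2 ^ k) x y < 2 ^ k := by
        by_contra hcon
        push Not at hcon
        have h' : ((2 ^ k : ℕ) : ℝ) ≤ (dd (Gr par k) (2 ^ k) x y : ℝ) := by exact_mod_cast hcon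
        have := mul_le_mul_of_nonneg_left h' (hu k).le
        rw [huk] at this
        linarith
      set u := π / 2 ^ k with hud
      have hu0 := hu k
      rw [← hud] at hu0
      set D := dd (Gr par k) (2 ^ k) x y with hD
      set j := ⌊θ / u⌋₊ with hj
      have hj1 : (j : ℝ) * u ≤ θ := by
        have := Nat.floor_le (div_nonneg hθ0 hu0.le)
        rw [← hj] at this
        rwa [le_div_iff₀ hu0] at this
      have hj2 : θ < ((j : ℝ) + 1) * u := by
        have := Nat.lt_floor_add_one (θ / u)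
        rw [← hj] at this
        rwa [div_lt_iff₀ hu0] at this
      have hjD : j ≤ D := by
        apply Nat.floor_le_of_le
        rw [div_le_iff₀ hu0]
        linarith
      obtain ⟨p, p1, p2, p3⟩ := (hdisc k).2.2.2.2 x y hlt' j hjD
      have p2' : (dd (Gr par k) (2 ^ k) p y : ℝ) + j = D := by exact_mod_cast p2
      refine ⟨p, ?_, ?_, fun w => ?_⟩
      · rw [p1]
        rw [abs_le]
        constructor <;> nlinarith
      · have : (dd (Gr par k) (2 ^ k) p y : ℝ) = D - j := by linarith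
        rw [this, abs_le]
        constructor <;> nlinarith
      · rcases p3 w with h | h | h
        · left
          have h' : (dd (Gr par k) (2 ^ k) w p : ℝ) + j ≤ dd (Gr par k) (2 ^ k) w x := by exact_mod_cast h
          have := mul_le_mul_of_nonneg_left h' hu0.le
          nlinarith
        · right; left
          have h' : (dd (Gr par k) (2 ^ k) w p : ℝ) + (D - j) ≤ dd (Gr par k) (2 ^ k) w y := by
            rw [← Nat.cast_sub hjD]
            exact_mod_cast h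
          have := mul_le_mul_of_nonneg_left h' hu0.le
          nlinarith
        · right; right
          have h' : 2 * ((2 ^ k : ℕ) : ℝ) ≤ D + dd (Gr par k) (2 ^ k) w x + dd (Gr par k) (2 ^ k) w y := by
            exact_mod_cast h
          have := mul_le_mul_of_nonneg_left h' hu0.le
          have h2 := huk k
          rw [← hud] at h2
          nlinarith)
  have hpow : ∀ i k, bb i ≤ k → π / 2 ^ k * ((2 ^ (k - bb i) : ℕ) : ℝ) = π / 2 ^ bb i := by
    intro i k hk
    push_cast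
    rw [pow_sub₀ _ (by norm_num) hk]
    field_simp
  refine ⟨par, ℕ → ℕ × Bool × ℕ, A', fun i _ => (i, false, 0), hA, fun i hi => (hp i hi).1, ?_, ?_, ?_⟩
  · intro i hi b
    apply hA1
    filter_upwards [eventually_ge_atTop (bb i)] with k hk
    rw [(Gr_dd hp' k i hi hk).1 b, hpow i k hk]
    rfl
  · intro i hi
    apply hA1
    filter_upwards [eventually_ge_atTop (bb i)] with k hk
    rw [(Gr_dd hp' k i hi hk).2, Nat.cast_mul, mul_left_comm, hpow i k hk]
    simp [lam, bb]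
  · intro v w
    apply hA2
    refine Eventually.of_forall fun k => ?_
    rcases dd_mem (Gr par k) (2 ^ k) (v, false, 0) (w, false, 0) with h | h
    · rw [h, huk]
      exact min_le_left _ _
    · have := JH3.height_lip par (fun i hi => (hp i hi).1) k v w _ h
      refine (min_le_right _ _).trans ?_
      rw [mul_comm]
      exact this

end H467G
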